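import Mathlib

/-!
# The theorem of Ax

If the conjugates of `a` over `K` have distance at most `r` from `a` then there is an element of `K`
of distance at most `p ^ p * r` from `a`.
-/

set_option autoImplicit false

open Polynomial

namespace Pool.Agent.K7.H9.AST

section

variable {Ω : Type*} [NormedField Ω] [IsUltrametricDist Ω]

lemma sub_le_max' (x y : Ω) : ‖x - y‖ ≤ max ‖x‖ ‖y‖ := by
  rw [sub_eq_add_neg, ← norm_neg y]
  exact IsUltrametricDist.norm_add_le_max _ _

lemma prod_coeff_le {r : ℝ} (hr : 0 ≤ r) (s : Multiset Ω) (hs : ∀ t ∈ s, ‖t‖ ≤ r) :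
    ∀ k ≤ Multiset.card s, ‖(s.map fun t => X - C t).prod.coeff k‖ ≤ r ^ (Multiset.card s - k) := by
  induction s using Multiset.induction_on with
  | empty =>
    intro k hk
    have : k = 0 := by simpa using hk
    subst this
    simp
  | cons t s ih =>
    intro k hk
    have ih' := ih fun u hu => hs u (Multiset.mem_cons_of_mem hu)
    have ht := hs t (Multiset.mem_cons_self t s)
    rw [Multiset.map_cons, Multiset.prod_cons, Multiset.card_cons]
    have hdeg : (s.map fun t => X - C t).prod.natDegree = Multiset.card s :=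
      natDegree_multiset_prod_X_sub_C_eq_card s
    rw [Multiset.card_cons] at hk
    have h2 : ‖t * (s.map fun t => X - C t).prod.coeff k‖ ≤ r ^ (Multiset.card s + 1 - k) := by
      rcases Nat.lt_or_ge (Multiset.card s) k with h | h
      · rw [coeff_eq_zero_of_natDegree_lt (by rw [hdeg]; exact h), mul_zero, norm_zero]
        positivity
      · rw [norm_mul, show Multiset.card s + 1 - k = (Multiset.card s - k) + 1 by omega, pow_succ,
          mul_comm]
        exact mul_le_mul (ih' k h) ht (norm_nonneg _) (by positivity)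
    rw [sub_mul, coeff_sub, coeff_C_mul]
    rcases Nat.eq_zero_or_pos k with rfl | hk0
    · rw [coeff_X_mul_zero, zero_sub, norm_neg]
      exact h2
    · obtain ⟨k, rfl⟩ : ∃ k', k = k' + 1 := ⟨k - 1, by omega⟩
      rw [coeff_X_mul]
      refine (sub_le_max' _ _).trans (max_le ?_ h2)
      rw [show Multiset.card s + 1 - (k + 1) = Multiset.card s - k by omega]
      exact ih' k (by omega)

lemma lt_prod_of_forall {ι : Type*} (s : Multiset ι) (f : ι → ℝ) {x : ℝ} (hx : 0 ≤ x)
    (h : ∀ i ∈ s, x < f i) (hs : s ≠ 0) : x ^ Multiset.card s < (s.map f).prod := by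
  induction s using Multiset.induction_on with
  | empty => exact absurd rfl hs
  | cons i s ih =>
    rw [Multiset.card_cons, Multiset.map_cons, Multiset.prod_cons, pow_succ, mul_comm]
    have hi := h i (Multiset.mem_cons_self i s)
    rcases eq_or_ne s 0 with rfl | hs'
    · simpa using hi
    · have h2 := ih (fun j hj => h j (Multiset.mem_cons_of_mem hj)) hs'
      have h3 : 0 < (s.map f).prod := lt_of_le_of_lt (by positivity) h2
      exact lt_of_le_of_lt (mul_le_mul_of_nonneg_left h2.le hx) (mul_lt_mul_of_pos_right hi h3)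

variable [IsAlgClosed Ω]

/-- The value of a divided derivative. -/
lemma hasse_le {r : ℝ} (hr : 0 ≤ r) {Q : Polynomial Ω} (hQ : Q.Monic) (a : Ω)
    (h : ∀ α ∈ Q.roots, ‖α - a‖ ≤ r) {q : ℕ} (hq : q ≤ Q.natDegree) :
    ‖(hasseDeriv q Q).eval a‖ ≤ r ^ (Q.natDegree - q) := by
  have hs : Q.Splits := IsAlgClosed.splits Q
  have h1 : Q = (Q.roots.map fun t => X - C t).prod := by
    conv_lhs => rw [hs.eq_prod_roots]
    rw [hQ.leadingCoeff, C_1, one_mul]
  have h2 : taylor a Q = ((Q.roots.map fun t => t - a).map fun t => X - C t).prod := by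
    conv_lhs => rw [h1]
    rw [taylor_apply, multiset_prod_comp, Multiset.map_map, Multiset.map_map]
    congr 1
    apply Multiset.map_congr rfl
    intro t _
    simp only [Function.comp_apply, sub_comp, X_comp, C_comp, C_sub]
    ring
  have hcard : Multiset.card Q.roots = Q.natDegree := (splits_iff_card_roots.1 hs)
  rw [← taylor_coeff, h2]
  have h3 := prod_coeff_le hr (Q.roots.map fun t => t - a) (by
    intro t ht
    obtain ⟨α, hα, rfl⟩ := Multiset.mem_map.1 ht
    exact h α hα) q (by rw [Multiset.card_map, hcard]; exact hq)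
  rwa [Multiset.card_map, hcard] at h3

variable [CharZero Ω]

/-- A root of the divided derivative close to the roots. -/
lemma exists_root {r : ℝ} (hr : 0 ≤ r) {Q : Polynomial Ω} (hQ : Q.Monic) (a : Ω)
    (h : ∀ α ∈ Q.roots, ‖α - a‖ ≤ r) {q : ℕ} (hq : q < Q.natDegree) {c : ℝ} (hc : 0 ≤ c)
    (h1 : 1 ≤ c ^ (Q.natDegree - q) * ‖((Q.natDegree.choose q : ℕ) : Ω)‖) :
    ∃ β ∈ (hasseDeriv q Q).roots, ‖a - β‖ ≤ r * c := by
  by_contra hno
  push Not at hno
  have hle := hasse_le hr hQ a h hq.le
  have hdeg : (hasseDeriv q Q).natDegree = Q.natDegree - q := natDegree_hasseDeriv Q q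
  have hlead : (hasseDeriv q Q).leadingCoeff = ((Q.natDegree.choose q : ℕ) : Ω) := by
    rw [leadingCoeff, hdeg, hasseDeriv_coeff, show Q.natDegree - q + q = Q.natDegree by omega,
      hQ.coeff_natDegree, mul_one]
  have hs : (hasseDeriv q Q).Splits := IsAlgClosed.splits _
  have hcard : Multiset.card (hasseDeriv q Q).roots = Q.natDegree - q := by
    rw [← hdeg]
    exact (splits_iff_card_roots.1 hs)
  have hpos : 0 < ‖((Q.natDegree.choose q : ℕ) : Ω)‖ := by
    rw [norm_pos_iff, Nat.cast_ne_zero]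
    exact (Nat.choose_pos hq.le).ne'
  have heval : ‖(hasseDeriv q Q).eval a‖ = ‖((Q.natDegree.choose q : ℕ) : Ω)‖ *
      ((hasseDeriv q Q).roots.map fun β => ‖a - β‖).prod := by
    conv_lhs => rw [hs.eq_prod_roots]
    rw [eval_mul, eval_C, hlead, norm_mul, eval_multiset_prod, Multiset.map_map]
    congr 1
    have h3 : ∀ s : Multiset Ω, ‖(s.map ((eval a) ∘ fun t => X - C t)).prod‖ =
        (s.map fun β => ‖a - β‖).prod := by
      intro s
      induction s using Multiset.induction_on with
      | empty => simp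
      | cons t s ih =>
        rw [Multiset.map_cons, Multiset.prod_cons, Multiset.map_cons, Multiset.prod_cons, norm_mul,
          ih]
        simp
    exact h3 _
  have h2 := lt_prod_of_forall (hasseDeriv q Q).roots (fun β => ‖a - β‖) (mul_nonneg hr hc) hno (by
    intro h0
    rw [h0, Multiset.card_zero] at hcard
    omega)
  rw [hcard] at h2
  rw [heval] at hle
  have h3 : ‖((Q.natDegree.choose q : ℕ) : Ω)‖ * (r * c) ^ (Q.natDegree - q) < r ^ (Q.natDegree - q) :=
    lt_of_lt_of_le (mul_lt_mul_of_pos_left h2 hpos) hle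
  rw [mul_pow] at h3
  have h4 : r ^ (Q.natDegree - q) * 1 ≤ r ^ (Q.natDegree - q) *
      (c ^ (Q.natDegree - q) * ‖((Q.natDegree.choose q : ℕ) : Ω)‖) :=
    mul_le_mul_of_nonneg_left h1 (by positivity)
  rw [mul_one] at h4
  have h5 : ‖((Q.natDegree.choose q : ℕ) : Ω)‖ * (r ^ (Q.natDegree - q) * c ^ (Q.natDegree - q)) =
    r ^ (Q.natDegree - q) * (c ^ (Q.natDegree - q) * ‖((Q.natDegree.choose q : ℕ) : Ω)‖) := by ring
  rw [h5] at h3
  exact absurd h3 (not_lt.2 h4)

end

/-- The constant of Ax. -/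
noncomputable def bnd (p n : ℕ) : ℝ := (p : ℝ) ^ ((p : ℝ) * (1 - 1 / n))

lemma bnd_mono {p : ℕ} (hp : 1 < p) {n m : ℕ} (hn : 0 < n) (h : n ≤ m) : bnd p n ≤ bnd p m := by
  unfold bnd
  apply Real.rpow_le_rpow_of_exponent_le (by exact_mod_cast hp.le)
  apply mul_le_mul_of_nonneg_left _ (Nat.cast_nonneg p)
  have h1 : (1 : ℝ) / m ≤ 1 / n := by
    apply one_div_le_one_div_of_le (by exact_mod_cast hn)
    exact_mod_cast h
  linarith

lemma bnd_le {p : ℕ} (hp : 1 < p) {n : ℕ} : bnd p n ≤ (p : ℝ) ^ (p : ℝ) := by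
  unfold bnd
  apply Real.rpow_le_rpow_of_exponent_le (by exact_mod_cast hp.le)
  have h1 : (0 : ℝ) ≤ 1 / n := by positivity
  nlinarith [(Nat.cast_nonneg p : (0 : ℝ) ≤ p)]

lemma one_le_bnd {p : ℕ} (hp : 1 < p) {n : ℕ} (hn : 0 < n) : 1 ≤ bnd p n := by
  unfold bnd
  apply Real.one_le_rpow (by exact_mod_cast hp.le)
  apply mul_nonneg (Nat.cast_nonneg p)
  have h1 : (1 : ℝ) / n ≤ 1 := by
    rw [div_le_one (by exact_mod_cast hn)]
    exact_mod_cast hn
  linarith

/-- The choice of the derivative. -/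
lemma exists_q {p : ℕ} (hp : p.Prime) {n : ℕ} (hn : 2 ≤ n) {Ω : Type*} [NormedField Ω]
    (hpn : ‖(p : Ω)‖ = (p : ℝ)⁻¹) (hcop : ∀ m : ℕ, ¬ p ∣ m → ‖(m : Ω)‖ = 1) :
    ∃ (q : ℕ) (c : ℝ), 0 < q ∧ q < n ∧ 1 ≤ c ∧ 1 ≤ c ^ (n - q) * ‖((n.choose q : ℕ) : Ω)‖ ∧
      c * bnd p (n - q) ≤ bnd p n := by
  have hfact : Fact p.Prime := ⟨hp⟩
  obtain ⟨k, d, hd, hnkd⟩ := Nat.exists_eq_pow_mul_and_not_dvd (n := n) (by omega) p hp.ne_one
  have hd0 : d ≠ 0 := by
    rintro rfl
    exact hd (dvd_zero p)
  rcases Nat.lt_or_ge 1 d with h1 | h1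
  · refine ⟨p ^ k, 1, pow_pos hp.pos k, ?_, le_rfl, ?_, ?_⟩
    · rw [hnkd]
      exact lt_mul_of_one_lt_right (pow_pos hp.pos k) h1
    · have h2 : ¬ p ∣ n.choose (p ^ k) := by
        have h3 := Choose.choose_modEq_choose_mul_prod_range_choose (n := n) (k := p ^ k) (p := p) k
        have h4 : ∀ i ∈ Finset.range k, (n / p ^ i % p).choose (p ^ k / p ^ i % p) = 1 := by
          intro i hi
          have hi' := Finset.mem_range.1 hi
          have h5 : n / p ^ i % p = 0 := by
            rw [hnkd, show p ^ k = p ^ i * (p * p ^ (k - i - 1)) by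
              rw [← pow_succ', ← pow_add]; congr 1; omega, mul_assoc,
              Nat.mul_div_cancel_left _ (pow_pos hp.pos i), mul_assoc]
            exact Nat.mul_mod_right _ _
          have h6 : p ^ k / p ^ i % p = 0 := by
            rw [show p ^ k = p ^ i * (p * p ^ (k - i - 1)) by
              rw [← pow_succ', ← pow_add]; congr 1; omega,
              Nat.mul_div_cancel_left _ (pow_pos hp.pos i)]
            exact Nat.mul_mod_right _ _
          rw [h5, h6]
          simp
        rw [Finset.prod_congr rfl h4, Finset.prod_const_one, Nat.cast_one, mul_one,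
          Nat.div_self (pow_pos hp.pos k), Nat.choose_one_right, show n / p ^ k = d by
            rw [hnkd, Nat.mul_div_cancel_left _ (pow_pos hp.pos k)]] at h3
        intro h7
        have h8 : (p : ℤ) ∣ (n.choose (p ^ k) : ℤ) := by exact_mod_cast h7
        have h9 : (p : ℤ) ∣ (d : ℤ) := h3.dvd_iff.1 h8
        exact hd (by exact_mod_cast h9)
      rw [one_pow, one_mul, hcop _ h2]
    · rw [one_mul]
      apply bnd_mono hp.one_lt
      · have : p ^ k < n := by
          rw [hnkd]
          exact lt_mul_of_one_lt_right (pow_pos hp.pos k) h1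
        omega
      · exact Nat.sub_le _ _
  · have hd1 : d = 1 := by omega
    subst hd1
    rw [mul_one] at hnkd
    obtain ⟨k, rfl⟩ : ∃ j, k = j + 1 := by
      refine ⟨k - 1, ?_⟩
      rcases Nat.eq_zero_or_pos k with rfl | hk
      · rw [pow_zero] at hnkd
        omega
      · omega
    have hlt : p ^ k < n := by
      rw [hnkd]
      exact Nat.pow_lt_pow_right hp.one_lt (Nat.lt_succ_self k)
    have hp0 : (0 : ℝ) < p := by exact_mod_cast hp.pos
    have hp1 : (1 : ℝ) ≤ p := by exact_mod_cast hp.one_lt.le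
    have hnq : (0 : ℝ) < ((n - p ^ k : ℕ) : ℝ) := by
      have : 0 < n - p ^ k := by omega
      exact_mod_cast this
    refine ⟨p ^ k, (p : ℝ) ^ (1 / ((n - p ^ k : ℕ) : ℝ)), pow_pos hp.pos k, hlt, ?_, ?_, ?_⟩
    · exact Real.one_le_rpow hp1 (by positivity)
    · have hch : ‖((n.choose (p ^ k) : ℕ) : Ω)‖ = (p : ℝ)⁻¹ := by
        have h2 := Nat.factorization_choose_prime_pow_add_factorization (p := p) (n := k + 1)
          (k := p ^ k) hp (by rw [← hnkd]; exact hlt.le) (pow_pos hp.pos k).ne'
        rw [hp.factorization_pow, Finsupp.single_eq_same, ← hnkd] at h2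
        have h3 : (n.choose (p ^ k)).factorization p = 1 := by omega
        have h4 : n.choose (p ^ k) ≠ 0 := (Nat.choose_pos hlt.le).ne'
        obtain ⟨e, f, hf, hef⟩ := Nat.exists_eq_pow_mul_and_not_dvd h4 p hp.ne_one
        have h5 : e = 1 := by
          have h6 : (p ^ e * f).factorization p = 1 := by rw [← hef]; exact h3
          have hf0 : f ≠ 0 := by
            rintro rfl
            exact hf (dvd_zero p)
          rw [Nat.factorization_mul (pow_pos hp.pos e).ne' hf0, Finsupp.add_apply,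
            hp.factorization_pow, Finsupp.single_eq_same,
            Nat.factorization_eq_zero_of_not_dvd hf] at h6
          omega
        rw [hef, h5, pow_one, Nat.cast_mul, norm_mul, hpn, hcop f hf, mul_one]
      rw [hch, ← Real.rpow_natCast, ← Real.rpow_mul hp0.le, one_div_mul_cancel hnq.ne',
        Real.rpow_one, mul_inv_cancel₀ hp0.ne']
    · unfold bnd
      rw [← Real.rpow_add hp0]
      apply Real.rpow_le_rpow_of_exponent_le hp1
      have h2 : ((n - p ^ k : ℕ) : ℝ) = n - (p : ℝ) ^ k := by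
        rw [Nat.cast_sub hlt.le]
        push_cast
        ring
      have h3 : (n : ℝ) = p * (p : ℝ) ^ k := by
        rw [hnkd]
        push_cast
        ring
      have h4 : (0 : ℝ) < (p : ℝ) ^ k := by positivity
      have h5 : (1 : ℝ) < p := by exact_mod_cast hp.one_lt
      rw [h2, h3]
      have h6 : (p : ℝ) * (p : ℝ) ^ k - (p : ℝ) ^ k = (p - 1) * (p : ℝ) ^ k := by ring
      rw [h6]
      have h7 : (0 : ℝ) < p - 1 := by linarith
      apply le_of_eq
      field_simp
      ring

/-- **The theorem of Ax.** -/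
theorem ax {p : ℕ} (hp : p.Prime) {K Ω : Type*} [Field K] [NormedField Ω] [IsUltrametricDist Ω]
    [IsAlgClosed Ω] [CharZero Ω] [Algebra K Ω] [Normal K Ω]
    (hpn : ‖(p : Ω)‖ = (p : ℝ)⁻¹) (hcop : ∀ m : ℕ, ¬ p ∣ m → ‖(m : Ω)‖ = 1)
    (hinv : ∀ (σ : Ω ≃ₐ[K] Ω) (x : Ω), ‖σ x‖ = ‖x‖) (a : Ω) {r : ℝ} (hr : 0 ≤ r)
    (ha : ∀ σ : Ω ≃ₐ[K] Ω, ‖σ a - a‖ ≤ r) :
    ∃ b : K, ‖a - algebraMap K Ω b‖ ≤ r * (p : ℝ) ^ (p : ℝ) := by
  have key : ∀ (n : ℕ) (a : Ω) (r : ℝ), 0 ≤ r → (minpoly K a).natDegree = n →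
      (∀ σ : Ω ≃ₐ[K] Ω, ‖σ a - a‖ ≤ r) → ∃ b : K, ‖a - algebraMap K Ω b‖ ≤ r * bnd p n := by
    intro n
    induction n using Nat.strong_induction_on with
    | _ n ih =>
      intro a r hr hn ha
      have hint : IsIntegral K a := Normal.isIntegral inferInstance a
      have hn0 : 0 < n := by
        rw [← hn]
        exact minpoly.natDegree_pos hint
      rcases Nat.lt_or_ge 1 n with h1 | h1
      swap
      · have h2 : (minpoly K a).natDegree = 1 := by omega
        obtain ⟨b, hb⟩ := minpoly.natDegree_eq_one_iff.1 h2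
        refine ⟨b, ?_⟩
        rw [hb, sub_self, norm_zero]
        exact mul_nonneg hr (zero_le_one.trans (one_le_bnd hp.one_lt hn0))
      obtain ⟨q, c, hq0, hqn, hc1, hc, hcb⟩ := exists_q hp h1 hpn hcop
      obtain ⟨Q, hQ⟩ : ∃ Q : Polynomial Ω, Q = (minpoly K a).map (algebraMap K Ω) := ⟨_, rfl⟩
      have hQm : Q.Monic := by
        rw [hQ]
        exact (minpoly.monic hint).map _
      have hQd : Q.natDegree = n := by
        rw [hQ, natDegree_map, hn]
      obtain ⟨β, hβ, hβa⟩ := exists_root hr hQm a (by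
        intro α hα
        rw [hQ, mem_roots_map (minpoly.ne_zero hint)] at hα
        have h2 : IsConjRoot K a α := isConjRoot_of_aeval_eq_zero hint hα
        obtain ⟨σ, hσ⟩ := isConjRoot_iff_exists_algEquiv.1 h2.symm
        rw [← hσ]
        exact ha σ) (q := q) (by rw [hQd]; exact hqn) (zero_le_one.trans hc1) (by rw [hQd]; exact hc)
      -- `β` has smaller degree
      obtain ⟨R, hR⟩ : ∃ R : Polynomial K, R = hasseDeriv q (minpoly K a) := ⟨_, rfl⟩
      have hcharK : CharZero K := (RingHom.charZero_iff (algebraMap K Ω).injective).2 inferInstance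
      have hRmap : R.map (algebraMap K Ω) = hasseDeriv q Q := by
        rw [hR, hQ]
        ext i
        rw [coeff_map, hasseDeriv_coeff, hasseDeriv_coeff, coeff_map, map_mul, map_natCast]
      have hRd : R.natDegree = n - q := by
        rw [hR, natDegree_hasseDeriv, hn]
      have hR0 : R ≠ 0 := by
        intro h0
        rw [h0, natDegree_zero] at hRd
        omega
      have hβR : aeval β R = 0 := by
        rw [← hRmap, mem_roots_map hR0] at hβ
        exact hβ
      have hdeg : (minpoly K β).natDegree ≤ n - q := by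
        rw [← hRd]
        exact natDegree_le_of_dvd (minpoly.dvd K β hβR) hR0
      have hintβ : IsIntegral K β := Normal.isIntegral inferInstance β
      have hβ0 : 0 < (minpoly K β).natDegree := minpoly.natDegree_pos hintβ
      have hrc : 0 ≤ r * c := mul_nonneg hr (zero_le_one.trans hc1)
      have hrrc : r ≤ r * c := le_mul_of_one_le_right hr hc1
      obtain ⟨b, hb⟩ := ih _ (by omega) β (r * c) hrc rfl (by
        intro σ
        have e1 : σ β - β = σ (β - a) + (σ a - a) - (β - a) := by
          rw [map_sub]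
          ring
        have h3 : ‖β - a‖ ≤ r * c := by rw [norm_sub_rev]; exact hβa
        rw [e1]
        refine (sub_le_max' _ _).trans (max_le ((IsUltrametricDist.norm_add_le_max _ _).trans
          (max_le ?_ ((ha σ).trans hrrc))) h3)
        rw [hinv]
        exact h3)
      refine ⟨b, ?_⟩
      have e2 : a - algebraMap K Ω b = (a - β) + (β - algebraMap K Ω b) := by ring
      have h4 : bnd p (minpoly K β).natDegree ≤ bnd p (n - q) := bnd_mono hp.one_lt hβ0 hdeg
      have h5 : r * c * bnd p (minpoly K β).natDegree ≤ r * bnd p n := by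
        rw [mul_assoc]
        apply mul_le_mul_of_nonneg_left _ hr
        exact (mul_le_mul_of_nonneg_left h4 (zero_le_one.trans hc1)).trans hcb
      have h6 : r * c ≤ r * c * bnd p (minpoly K β).natDegree :=
        le_mul_of_one_le_right hrc (one_le_bnd hp.one_lt hβ0)
      rw [e2]
      exact (IsUltrametricDist.norm_add_le_max _ _).trans
        (max_le (hβa.trans (h6.trans h5)) (hb.trans h5))
  obtain ⟨b, hb⟩ := key _ a r hr rfl ha
  exact ⟨b, hb.trans (mul_le_mul_of_nonneg_left (bnd_le hp.one_lt) hr)⟩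

end Pool.Agent.K7.H9.AST
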