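import Mathlib
import Pool.Agent.K7.H9.AST.Ax

/-!
# The cyclotomic fields of `p`-power order over `ℚ_p`
-/

set_option autoImplicit false

open Polynomial

namespace Pool.Agent.K7.H9.AST

section sums

variable {Ω : Type*} [NormedField Ω] [IsUltrametricDist Ω]

lemma sum_le {ι : Type*} (s : Finset ι) (f : ι → Ω) {r : ℝ} (hr : 0 ≤ r)
    (h : ∀ i ∈ s, ‖f i‖ ≤ r) : ‖∑ i ∈ s, f i‖ ≤ r := by
  classical
  induction s using Finset.induction_on with
  | empty => simpa using hr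
  | insert i s hi ih =>
    rw [Finset.sum_insert hi]
    exact (IsUltrametricDist.norm_add_le_max _ _).trans
      (max_le (h i (Finset.mem_insert_self i s)) (ih fun j hj => h j (Finset.mem_insert_of_mem hj)))

lemma sum_lt {ι : Type*} (s : Finset ι) (f : ι → Ω) {r : ℝ} (hr : 0 < r)
    (h : ∀ i ∈ s, ‖f i‖ < r) : ‖∑ i ∈ s, f i‖ < r := by
  classical
  induction s using Finset.induction_on with
  | empty => simpa using hr
  | insert i s hi ih =>
    rw [Finset.sum_insert hi]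
    exact (IsUltrametricDist.norm_add_le_max _ _).trans_lt
      (max_lt (h i (Finset.mem_insert_self i s)) (ih fun j hj => h j (Finset.mem_insert_of_mem hj)))

lemma norm_add_of_lt {x y : Ω} (h : ‖y‖ < ‖x‖) : ‖x + y‖ = ‖x‖ := by
  apply le_antisymm
  · exact (IsUltrametricDist.norm_add_le_max _ _).trans (max_le le_rfl h.le)
  · by_contra hlt
    push Not at hlt
    have h1 : ‖x‖ ≤ max ‖x + y‖ ‖y‖ := by
      have := sub_le_max' (x + y) y
      rwa [add_sub_cancel_right] at this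
    exact absurd (h1.trans_lt (max_lt hlt h)) (lt_irrefl _)

lemma pow_sub_one_le {x : Ω} (hx : ‖x‖ ≤ 1) (u : ℕ) : ‖x ^ u - 1‖ ≤ ‖x - 1‖ := by
  induction u with
  | zero => simp
  | succ u ih =>
    have e1 : x ^ (u + 1) - 1 = x * (x ^ u - 1) + (x - 1) := by ring
    rw [e1]
    refine (IsUltrametricDist.norm_add_le_max _ _).trans (max_le ?_ le_rfl)
    rw [norm_mul]
    exact (mul_le_of_le_one_left (norm_nonneg _) hx).trans ih

end sums

variable (p : ℕ) [hp : Fact p.Prime]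

lemma norm_inv (σ : PadicAlgCl p ≃ₐ[ℚ_[p]] PadicAlgCl p) (x : PadicAlgCl p) : ‖σ x‖ = ‖x‖ :=
  (spectralNorm_eq_of_equiv σ x).symm

lemma norm_p' : ‖(p : PadicAlgCl p)‖ = (p : ℝ)⁻¹ := by
  have h1 := PadicAlgCl.norm_extends p (p : ℚ_[p])
  rw [Padic.norm_p] at h1
  rw [← h1]
  congr 1

lemma norm_coprime (m : ℕ) (hm : ¬ p ∣ m) : ‖(m : PadicAlgCl p)‖ = 1 := by
  have h1 := PadicAlgCl.norm_extends p (m : ℚ_[p])
  rw [Padic.norm_natCast_eq_one_iff.2 ((Nat.Prime.coprime_iff_not_dvd hp.1).2 hm)] at h1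
  rw [← h1]
  congr 1

lemma norm_alg (x : ℚ_[p]) : ‖algebraMap ℚ_[p] (PadicAlgCl p) x‖ = ‖x‖ := PadicAlgCl.norm_extends p x

section prim

variable {p} {N : ℕ} {ζ : PadicAlgCl p} (hζ : IsPrimitiveRoot ζ (p ^ (N + 1)))

include hζ

lemma norm_root : ‖ζ‖ = 1 := by
  have h1 : ‖ζ‖ ^ (p ^ (N + 1)) = 1 := by
    rw [← norm_pow, hζ.pow_eq_one, norm_one]
  exact (pow_eq_one_iff_of_nonneg (norm_nonneg _) (pow_pos hp.1.pos _).ne').1 h1

lemma norm_root_sub : ‖ζ - 1‖ ^ (p ^ (N + 1)).totient = (p : ℝ)⁻¹ := by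
  have hpos : 0 < p ^ (N + 1) := pow_pos hp.1.pos _
  have h1 : eval 1 (cyclotomic (p ^ (N + 1)) (PadicAlgCl p)) = (p : PadicAlgCl p) :=
    eval_one_cyclotomic_prime_pow N
  rw [cyclotomic_eq_prod_X_sub_primitiveRoots hζ, eval_prod] at h1
  have h2 : ∀ μ ∈ primitiveRoots (p ^ (N + 1)) (PadicAlgCl p), ‖eval 1 (X - C μ)‖ = ‖ζ - 1‖ := by
    intro μ hμ
    have hμ' : IsPrimitiveRoot μ (p ^ (N + 1)) := isPrimitiveRoot_of_mem_primitiveRoots hμ
    rw [eval_sub, eval_X, eval_C, norm_sub_rev]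
    obtain ⟨i, -, hi⟩ := hζ.eq_pow_of_pow_eq_one hμ'.pow_eq_one
    obtain ⟨j, -, hj⟩ := hμ'.eq_pow_of_pow_eq_one hζ.pow_eq_one
    apply le_antisymm
    · rw [← hi]
      exact pow_sub_one_le (norm_root hζ).le i
    · conv_lhs => rw [← hj]
      exact pow_sub_one_le (norm_root hμ').le j
  have h3 := congrArg norm h1
  rw [norm_prod, Finset.prod_congr rfl h2, Finset.prod_const, hζ.card_primitiveRoots, norm_p'] at h3
  exact h3

lemma norm_root_pos : 0 < ‖ζ - 1‖ := by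
  have h1 := norm_root_sub hζ
  by_contra h2
  have h3 : ‖ζ - 1‖ = 0 := le_antisymm (not_lt.1 h2) (norm_nonneg _)
  have htot : (p ^ (N + 1)).totient ≠ 0 := (Nat.totient_pos.2 (pow_pos hp.1.pos _)).ne'
  rw [h3, zero_pow htot] at h1
  have h4 : (0 : ℝ) < (p : ℝ)⁻¹ := inv_pos.2 (by exact_mod_cast hp.1.pos)
  exact absurd h1 h4.ne

/-- The terms of an expansion have different norms. -/
lemma norm_ne {a b : ℚ_[p]} (ha : a ≠ 0) (hb : b ≠ 0) {i j : ℕ}
    (hi : i < (p ^ (N + 1)).totient) (hj : j < (p ^ (N + 1)).totient)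
    (h : ‖a‖ * ‖ζ - 1‖ ^ i = ‖b‖ * ‖ζ - 1‖ ^ j) : i = j := by
  obtain ⟨φ, hφ⟩ : ∃ φ, φ = (p ^ (N + 1)).totient := ⟨_, rfl⟩
  have hρ := norm_root_sub hζ
  rw [← hφ] at hi hj hρ
  have hp1 : (1 : ℝ) < p := by exact_mod_cast hp.1.one_lt
  have hp0 : (p : ℝ) ≠ 0 := by positivity
  have h1 : (‖a‖ * ‖ζ - 1‖ ^ i) ^ φ = (‖b‖ * ‖ζ - 1‖ ^ j) ^ φ := by rw [h]
  rw [mul_pow, mul_pow, ← pow_mul, ← pow_mul, mul_comm i, mul_comm j, pow_mul, pow_mul, hρ,
    Padic.norm_eq_zpow_neg_valuation ha, Padic.norm_eq_zpow_neg_valuation hb] at h1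
  have h2 : ∀ (v : ℤ) (i : ℕ), ((p : ℝ) ^ (-v)) ^ φ * (p : ℝ)⁻¹ ^ i = (p : ℝ) ^ (-v * φ - i) := by
    intro v i
    rw [← zpow_natCast ((p : ℝ) ^ (-v)), ← _root_.zpow_mul, zpow_sub₀ hp0, zpow_natCast, inv_pow,
      div_eq_mul_inv]
  rw [h2, h2] at h1
  have h3 := zpow_right_injective₀ (by positivity) hp1.ne' h1
  have h4 : ((i : ℤ) - j) = φ * (b.valuation - a.valuation) := by linear_combination -h3
  have h5 : ((φ : ℤ)) ∣ (i : ℤ) - j := ⟨_, h4⟩
  have h6 := Int.eq_zero_of_abs_lt_dvd h5 (by rw [abs_lt]; constructor <;> omega)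
  omega

/-- The norm of a polynomial of small degree in `ζ - 1`. -/
lemma norm_aeval {f : Polynomial ℚ_[p]} (hf : f ≠ 0) (hd : f.natDegree < (p ^ (N + 1)).totient) :
    aeval (ζ - 1) f ≠ 0 ∧ ∀ j, ‖f.coeff j‖ * ‖ζ - 1‖ ^ j ≤ ‖aeval (ζ - 1) f‖ := by
  classical
  have hρ := norm_root_pos hζ
  obtain ⟨i, hi, hmax⟩ := Finset.exists_max_image f.support
    (fun j => ‖f.coeff j‖ * ‖ζ - 1‖ ^ j) (Polynomial.support_nonempty.2 hf)
  have hi0 : f.coeff i ≠ 0 := mem_support_iff.1 hi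
  have hgi : 0 < ‖f.coeff i‖ * ‖ζ - 1‖ ^ i := mul_pos (norm_pos_iff.2 hi0) (pow_pos hρ i)
  have hle : ∀ j ∈ f.support, j < (p ^ (N + 1)).totient := fun j hj =>
    (le_natDegree_of_mem_supp j hj).trans_lt hd
  have hterm : ∀ j, ‖algebraMap ℚ_[p] (PadicAlgCl p) (f.coeff j) * (ζ - 1) ^ j‖ =
      ‖f.coeff j‖ * ‖ζ - 1‖ ^ j := fun j => by rw [norm_mul, norm_pow, norm_alg]
  have hlt : ∀ j ∈ f.support.erase i, ‖algebraMap ℚ_[p] (PadicAlgCl p) (f.coeff j) * (ζ - 1) ^ j‖ <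
      ‖f.coeff i‖ * ‖ζ - 1‖ ^ i := by
    intro j hj
    obtain ⟨hji, hj'⟩ := Finset.mem_erase.1 hj
    rw [hterm]
    refine lt_of_le_of_ne (hmax j hj') fun h => hji ?_
    exact norm_ne hζ (mem_support_iff.1 hj') hi0 (hle j hj') (hle i hi) h
  have hsum : aeval (ζ - 1) f = algebraMap ℚ_[p] (PadicAlgCl p) (f.coeff i) * (ζ - 1) ^ i +
      ∑ j ∈ f.support.erase i, algebraMap ℚ_[p] (PadicAlgCl p) (f.coeff j) * (ζ - 1) ^ j := by
    rw [Finset.add_sum_erase f.support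
      (fun j => algebraMap ℚ_[p] (PadicAlgCl p) (f.coeff j) * (ζ - 1) ^ j) hi, aeval_def, eval₂_def]
    rfl
  have hnorm : ‖aeval (ζ - 1) f‖ = ‖f.coeff i‖ * ‖ζ - 1‖ ^ i := by
    rw [hsum, norm_add_of_lt, hterm]
    rw [hterm]
    exact sum_lt _ _ hgi hlt
  constructor
  · rw [← norm_pos_iff, hnorm]
    exact hgi
  · intro j
    rw [hnorm]
    by_cases hj : j ∈ f.support
    · exact hmax j hj
    · rw [notMem_support_iff.1 hj, norm_zero, zero_mul]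
      exact hgi.le

/-- Integrality of the coefficients. -/
lemma coeff_le_one {f : Polynomial ℚ_[p]} (hd : f.natDegree < (p ^ (N + 1)).totient)
    (h : ‖aeval (ζ - 1) f‖ ≤ 1) (j : ℕ) : ‖f.coeff j‖ ≤ 1 := by
  rcases eq_or_ne f 0 with rfl | hf
  · simp
  by_cases hj : j ≤ f.natDegree
  swap
  · rw [coeff_eq_zero_of_natDegree_lt (not_le.1 hj), norm_zero]
    exact zero_le_one
  have h1 := ((norm_aeval hζ hf hd).2 j).trans h
  have hρ := norm_root_pos hζ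
  have hφ := norm_root_sub hζ
  have hjφ : j < (p ^ (N + 1)).totient := hj.trans_lt hd
  have hp1 : (1 : ℝ) < p := by exact_mod_cast hp.1.one_lt
  have hρ1 : ‖ζ - 1‖ < 1 := by
    by_contra h2
    push Not at h2
    have h3 := one_le_pow₀ (n := (p ^ (N + 1)).totient) h2
    rw [hφ] at h3
    exact absurd h3 (not_le.2 (inv_lt_one_of_one_lt₀ hp1))
  have h2 : ‖f.coeff j‖ < (p : ℝ) ^ (1 : ℤ) := by
    rw [zpow_one]
    have h3 : (p : ℝ)⁻¹ < ‖ζ - 1‖ ^ j := by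
      rw [← hφ]
      exact pow_lt_pow_right_of_lt_one₀ hρ hρ1 hjφ
    have h4 : ‖f.coeff j‖ * (p : ℝ)⁻¹ < 1 ∨ ‖f.coeff j‖ = 0 := by
      rcases eq_or_lt_of_le (norm_nonneg (f.coeff j)) with h5 | h5
      · exact Or.inr h5.symm
      · exact Or.inl (lt_of_lt_of_le (mul_lt_mul_of_pos_left h3 h5) h1)
    rcases h4 with h4 | h4
    · rwa [← div_eq_mul_inv, div_lt_one (by positivity)] at h4
    · rw [h4]
      positivity
  rw [Padic.norm_lt_pow_iff_norm_le_pow_sub_one] at h2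
  simpa using h2

lemma natDegree_minpoly : (minpoly ℚ_[p] ζ).natDegree = (p ^ (N + 1)).totient := by
  have hint : IsIntegral ℚ_[p] ζ := Algebra.IsIntegral.isIntegral ζ
  have hcyc : aeval ζ (cyclotomic (p ^ (N + 1)) ℚ_[p]) = 0 := by
    have h1 := hζ.isRoot_cyclotomic (pow_pos hp.1.pos _)
    rw [← map_cyclotomic (p ^ (N + 1)) (algebraMap ℚ_[p] (PadicAlgCl p)), IsRoot.def, eval_map] at h1
    exact h1
  apply le_antisymm
  · rw [← natDegree_cyclotomic (p ^ (N + 1)) ℚ_[p]]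
    exact natDegree_le_of_dvd (minpoly.dvd _ _ hcyc) (cyclotomic_ne_zero _ _)
  · by_contra hlt
    push Not at hlt
    obtain ⟨g, hg⟩ : ∃ g : Polynomial ℚ_[p], g = (minpoly ℚ_[p] ζ).comp (X + 1) := ⟨_, rfl⟩
    have hgd : g.natDegree = (minpoly ℚ_[p] ζ).natDegree := by
      rw [hg, natDegree_comp, show (X + 1 : Polynomial ℚ_[p]) = X + C 1 by rw [C_1], natDegree_X_add_C,
        mul_one]
    have hg0 : g ≠ 0 := by
      intro h0
      rw [h0, natDegree_zero] at hgd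
      exact absurd (minpoly.natDegree_pos hint) (by omega)
    have h1 := (norm_aeval hζ hg0 (by rw [hgd]; exact hlt)).1
    apply h1
    rw [hg, aeval_comp]
    have : aeval (ζ - 1) (X + 1 : Polynomial ℚ_[p]) = ζ := by
      rw [map_add, aeval_X, map_one]
      ring
    rw [this, minpoly.aeval]

lemma minpoly_eq : minpoly ℚ_[p] ζ = cyclotomic (p ^ (N + 1)) ℚ_[p] := by
  have hint : IsIntegral ℚ_[p] ζ := Algebra.IsIntegral.isIntegral ζ
  have hcyc : aeval ζ (cyclotomic (p ^ (N + 1)) ℚ_[p]) = 0 := by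
    have h1 := hζ.isRoot_cyclotomic (pow_pos hp.1.pos _)
    rw [← map_cyclotomic (p ^ (N + 1)) (algebraMap ℚ_[p] (PadicAlgCl p)), IsRoot.def, eval_map] at h1
    exact h1
  refine (eq_of_monic_of_dvd_of_natDegree_le (minpoly.monic hint) (cyclotomic.monic _ _)
    (minpoly.dvd _ _ hcyc) ?_).symm
  rw [natDegree_cyclotomic, natDegree_minpoly hζ]

/-- The cyclotomic character is surjective. -/
lemma exists_sigma {u : ℕ} (hu : u.Coprime p) :
    ∃ σ : PadicAlgCl p ≃ₐ[ℚ_[p]] PadicAlgCl p, σ ζ = ζ ^ u := by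
  have h1 : IsPrimitiveRoot (ζ ^ u) (p ^ (N + 1)) := hζ.pow_of_coprime u (Nat.Coprime.pow_right _ hu)
  have h2 : IsConjRoot ℚ_[p] (ζ ^ u) ζ := by
    rw [IsConjRoot, minpoly_eq hζ, minpoly_eq h1]
  exact isConjRoot_iff_exists_algEquiv.1 h2

end prim

end Pool.Agent.K7.H9.AST
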