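import Mathlib
import Pool.Agent.K7.H9.AST.Cyc

/-!
# Normalised traces
-/

set_option autoImplicit false

open Polynomial

namespace Pool.Agent.K7.H9.AST

variable {p : ℕ} [hp : Fact p.Prime]

/-- The average over the automorphisms `s j`, `j < D`. -/
noncomputable def tr (s : ℕ → (PadicAlgCl p ≃ₐ[ℚ_[p]] PadicAlgCl p)) (D : ℕ) :
    PadicAlgCl p →ₗ[ℚ_[p]] PadicAlgCl p :=
  (D : ℚ_[p])⁻¹ • ∑ j ∈ Finset.range D, (s j).toLinearMap

lemma tr_apply (s : ℕ → (PadicAlgCl p ≃ₐ[ℚ_[p]] PadicAlgCl p)) (D : ℕ) (x : PadicAlgCl p) :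
    tr s D x = (D : ℚ_[p])⁻¹ • ∑ j ∈ Finset.range D, s j x := by
  rw [tr, LinearMap.smul_apply, LinearMap.sum_apply]
  rfl

lemma sig_smul (τ : PadicAlgCl p ≃ₐ[ℚ_[p]] PadicAlgCl p) (a : ℚ_[p]) (x : PadicAlgCl p) :
    τ (a • x) = a • τ x := by
  rw [Algebra.smul_def, map_mul, AlgEquiv.commutes, Algebra.smul_def]

/-- The average of the powers of a root of unity. -/
lemma avg_one {D : ℕ} (hD : D ≠ 0) :
    (D : ℚ_[p])⁻¹ • ∑ _j ∈ Finset.range D, (1 : PadicAlgCl p) = 1 := by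
  have hD' : (D : PadicAlgCl p) ≠ 0 := Nat.cast_ne_zero.2 hD
  rw [Finset.sum_const, Finset.card_range, nsmul_eq_mul, mul_one, Algebra.smul_def, map_inv₀,
    map_natCast, inv_mul_cancel₀ hD']

lemma avg_zero {D : ℕ} {ω : PadicAlgCl p} (hω : ω ^ D = 1) (h1 : ω ≠ 1) :
    ∑ j ∈ Finset.range D, ω ^ j = 0 := by
  have h2 := mul_neg_geom_sum ω D
  rw [hω, sub_self] at h2
  exact (mul_eq_zero.1 h2).resolve_left (sub_ne_zero.2 h1.symm)

section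

variable {N n : ℕ} (hn : n ≤ N) {ζ : PadicAlgCl p} (hζ : IsPrimitiveRoot ζ (p ^ (N + 1)))
  {s : ℕ → (PadicAlgCl p ≃ₐ[ℚ_[p]] PadicAlgCl p)} (hs : ∀ j, s j ζ = ζ ^ (1 + p ^ (n + 1) * j))

include hn hζ hs

lemma tr_pow_one {k : ℕ} (hk : ζ ^ (k * p ^ (n + 1)) = 1) : tr s (p ^ (N - n)) (ζ ^ k) = ζ ^ k := by
  have h1 : ∀ j, s j (ζ ^ k) = ζ ^ k := by
    intro j
    rw [map_pow, hs, ← pow_mul, show (1 + p ^ (n + 1) * j) * k = k + k * p ^ (n + 1) * j by ring,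
      pow_add, pow_mul ζ _ j, hk, one_pow, mul_one]
  have h2 := avg_one (p := p) (D := p ^ (N - n)) (pow_pos hp.1.pos _).ne'
  rw [tr_apply, Finset.sum_congr rfl fun j _ => h1 j]
  have h3 : ∑ _j ∈ Finset.range (p ^ (N - n)), ζ ^ k =
      ζ ^ k * ∑ _j ∈ Finset.range (p ^ (N - n)), (1 : PadicAlgCl p) := by
    rw [Finset.mul_sum, mul_one]
  rw [h3, ← mul_smul_comm, h2, mul_one]

lemma tr_pow_ne {k : ℕ} (hk : ζ ^ (k * p ^ (n + 1)) ≠ 1) : tr s (p ^ (N - n)) (ζ ^ k) = 0 := by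
  have h1 : ∀ j, s j (ζ ^ k) = ζ ^ k * (ζ ^ (k * p ^ (n + 1))) ^ j := by
    intro j
    rw [map_pow, hs, ← pow_mul, show (1 + p ^ (n + 1) * j) * k = k + k * p ^ (n + 1) * j by ring,
      pow_add, pow_mul ζ _ j]
  rw [tr_apply, Finset.sum_congr rfl fun j _ => h1 j, ← Finset.mul_sum, avg_zero _ hk, mul_zero,
    smul_zero]
  rw [← pow_mul, mul_assoc, ← pow_add, show n + 1 + (N - n) = N + 1 by omega, mul_comm, pow_mul,
    hζ.pow_eq_one, one_pow]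

lemma norm_tr_pow (k : ℕ) : ‖tr s (p ^ (N - n)) (ζ ^ k)‖ ≤ 1 := by
  by_cases hk : ζ ^ (k * p ^ (n + 1)) = 1
  · rw [tr_pow_one hn hζ hs hk, norm_pow, norm_root hζ, one_pow]
  · rw [tr_pow_ne hn hζ hs hk, norm_zero]
    exact zero_le_one

lemma norm_tr_pi (i : ℕ) : ‖tr s (p ^ (N - n)) ((ζ - 1) ^ i)‖ ≤ 1 := by
  have h1 : (ζ - 1) ^ i = ∑ m ∈ Finset.range (i + 1),
      ((-1 : ℚ_[p]) ^ (i - m) * (i.choose m : ℚ_[p])) • ζ ^ m := by
    rw [sub_eq_add_neg, add_pow]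
    refine Finset.sum_congr rfl fun m _ => ?_
    rw [Algebra.smul_def, map_mul, map_pow, map_neg, map_one, map_natCast]
    ring
  rw [h1, map_sum]
  refine sum_le _ _ zero_le_one fun m _ => ?_
  rw [map_smul, norm_smul, norm_mul, norm_pow, norm_neg, norm_one, one_pow, one_mul]
  have h2 : ‖(i.choose m : ℚ_[p])‖ ≤ 1 := by
    have := Padic.norm_int_le_one (p := p) (i.choose m : ℤ)
    simpa using this
  exact mul_le_one₀ h2 (norm_nonneg _) (norm_tr_pow hn hζ hs m)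

lemma norm_tr_le_one {f : Polynomial ℚ_[p]} (hd : f.natDegree < (p ^ (N + 1)).totient)
    (h : ‖aeval (ζ - 1) f‖ ≤ 1) : ‖tr s (p ^ (N - n)) (aeval (ζ - 1) f)‖ ≤ 1 := by
  rw [aeval_eq_sum_range, map_sum]
  refine sum_le _ _ zero_le_one fun j _ => ?_
  rw [map_smul, norm_smul]
  exact mul_le_one₀ (coeff_le_one hζ hd h j) (norm_nonneg _) (norm_tr_pi hn hζ hs j)

omit hn hs in
lemma exists_small (g : Polynomial ℚ_[p]) : ∃ f : Polynomial ℚ_[p],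
    f.natDegree < (p ^ (N + 1)).totient ∧ aeval (ζ - 1) f = aeval ζ g := by
  obtain ⟨m, hm⟩ : ∃ m : Polynomial ℚ_[p], m = (minpoly ℚ_[p] ζ).comp (X + C 1) := ⟨_, rfl⟩
  have hint : IsIntegral ℚ_[p] ζ := Algebra.IsIntegral.isIntegral ζ
  have hmm : m.Monic := by
    rw [hm]
    exact (minpoly.monic hint).comp_X_add_C 1
  have hmd : m.natDegree = (p ^ (N + 1)).totient := by
    rw [hm, natDegree_comp, natDegree_X_add_C, mul_one, natDegree_minpoly hζ]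
  have hX : aeval (ζ - 1) (X + C 1 : Polynomial ℚ_[p]) = ζ := by
    rw [map_add, aeval_X, aeval_C, map_one]
    ring
  have hm0 : aeval (ζ - 1) m = 0 := by
    rw [hm, aeval_comp, hX, minpoly.aeval]
  refine ⟨(g.comp (X + C 1)) %ₘ m, ?_, ?_⟩
  · rw [← hmd]
    apply natDegree_modByMonic_lt _ hmm
    intro h1
    rw [h1, natDegree_one] at hmd
    exact absurd hmd (Nat.totient_pos.2 (pow_pos hp.1.pos _)).ne
  · rw [aeval_modByMonic_eq_self_of_root hm0, aeval_comp, hX]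

/-- The bound for the normalised trace. -/
theorem norm_tr (g : Polynomial ℚ_[p]) :
    ‖tr s (p ^ (N - n)) (aeval ζ g)‖ ≤ p * ‖aeval ζ g‖ := by
  obtain ⟨x, hx⟩ : ∃ x, x = aeval ζ g := ⟨_, rfl⟩
  rw [← hx]
  rcases eq_or_ne x 0 with h0 | h0
  · rw [h0, map_zero, norm_zero, mul_zero]
  have hp1 : (1 : ℝ) < p := by exact_mod_cast hp.1.one_lt
  have hp0 : (0 : ℝ) < p := by positivity
  obtain ⟨k, hk1, hk2⟩ := exists_mem_Ioc_zpow (norm_pos_iff.2 h0) hp1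
  obtain ⟨g', hg'⟩ : ∃ g' : Polynomial ℚ_[p], g' = C ((p : ℚ_[p]) ^ (k + 1)) * g := ⟨_, rfl⟩
  have h1 : aeval ζ g' = (p : ℚ_[p]) ^ (k + 1) • x := by
    rw [hg', map_mul, aeval_C, ← hx, Algebra.smul_def]
  obtain ⟨f, hfd, hf⟩ := exists_small hζ g'
  rw [h1] at hf
  have hpk : (0 : ℝ) < (p : ℝ) ^ (k + 1) := zpow_pos hp0 _
  have h2 : ‖aeval (ζ - 1) f‖ ≤ 1 := by
    rw [hf, norm_smul, Padic.norm_p_zpow, _root_.zpow_neg, ← div_eq_inv_mul, div_le_one hpk]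
    exact hk2
  have h3 := norm_tr_le_one hn hζ hs hfd h2
  rw [hf, map_smul, norm_smul, Padic.norm_p_zpow, _root_.zpow_neg, ← div_eq_inv_mul,
    div_le_one hpk] at h3
  refine h3.trans ?_
  rw [zpow_add_one₀ hp0.ne', mul_comm]
  exact mul_le_mul_of_nonneg_left hk1.le hp0.le

/-- The trace is fixed by the automorphisms which fix the smaller field. -/
lemma tr_fixed (g : Polynomial ℚ_[p]) {τ : PadicAlgCl p ≃ₐ[ℚ_[p]] PadicAlgCl p}
    (hτ : τ (ζ ^ p ^ (N - n)) = ζ ^ p ^ (N - n)) :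
    τ (tr s (p ^ (N - n)) (aeval ζ g)) = tr s (p ^ (N - n)) (aeval ζ g) := by
  rw [aeval_eq_sum_range, map_sum, map_sum]
  refine Finset.sum_congr rfl fun k _ => ?_
  rw [map_smul, sig_smul]
  congr 1
  by_cases hk : ζ ^ (k * p ^ (n + 1)) = 1
  · rw [tr_pow_one hn hζ hs hk]
    have h1 := hζ.dvd_of_pow_eq_one _ hk
    have h2 : p ^ (N - n) ∣ k := by
      have h3 : p ^ (N - n) * p ^ (n + 1) ∣ k * p ^ (n + 1) := by
        rw [← pow_add, show N - n + (n + 1) = N + 1 by omega]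
        exact h1
      exact Nat.dvd_of_mul_dvd_mul_right (pow_pos hp.1.pos _) h3
    obtain ⟨k', rfl⟩ := h2
    rw [pow_mul, map_pow, hτ]
  · rw [tr_pow_ne hn hζ hs hk, map_zero]

/-- The trace commutes with the automorphisms. -/
lemma tr_comm (g : Polynomial ℚ_[p]) (τ : PadicAlgCl p ≃ₐ[ℚ_[p]] PadicAlgCl p) :
    tr s (p ^ (N - n)) (τ (aeval ζ g)) = τ (tr s (p ^ (N - n)) (aeval ζ g)) := by
  have hu : ∃ u, τ ζ = ζ ^ u := by
    have h1 : (τ ζ) ^ (p ^ (N + 1)) = 1 := by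
      rw [← map_pow, hζ.pow_eq_one, map_one]
    obtain ⟨u, -, hu⟩ := hζ.eq_pow_of_pow_eq_one h1
    exact ⟨u, hu.symm⟩
  obtain ⟨u, hu⟩ := hu
  rw [tr_apply, tr_apply, sig_smul, map_sum]
  congr 1
  refine Finset.sum_congr rfl fun j _ => ?_
  have hc : s j (τ ζ) = τ (s j ζ) := by
    rw [hs, map_pow, hu, map_pow, hs, ← pow_mul, ← pow_mul, mul_comm]
  have h1 : ∀ (σ : PadicAlgCl p ≃ₐ[ℚ_[p]] PadicAlgCl p) (y : PadicAlgCl p),
      σ (aeval y g) = aeval (σ y) g := fun σ y => (aeval_algHom_apply (σ : PadicAlgCl p →ₐ[ℚ_[p]]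
        PadicAlgCl p) y g).symm
  rw [h1 τ, h1 (s j), h1 (s j), h1 τ, hc]

/-- The trace is the identity on the smaller field. -/
lemma tr_self (g : Polynomial ℚ_[p]) :
    tr s (p ^ (N - n)) (aeval (ζ ^ p ^ (N - n)) g) = aeval (ζ ^ p ^ (N - n)) g := by
  have h0 : ∀ j, s j (ζ ^ p ^ (N - n)) = ζ ^ p ^ (N - n) := by
    intro j
    rw [map_pow, hs, ← pow_mul, show (1 + p ^ (n + 1) * j) * p ^ (N - n) =
      p ^ (N - n) + p ^ (n + 1 + (N - n)) * j by ring, show n + 1 + (N - n) = N + 1 by omega,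
      pow_add, pow_mul ζ _ j, hζ.pow_eq_one, one_pow, mul_one]
  have h1 : ∀ (σ : PadicAlgCl p ≃ₐ[ℚ_[p]] PadicAlgCl p) (y : PadicAlgCl p),
      σ (aeval y g) = aeval (σ y) g := fun σ y => (aeval_algHom_apply (σ : PadicAlgCl p →ₐ[ℚ_[p]]
        PadicAlgCl p) y g).symm
  rw [tr_apply, Finset.sum_congr rfl fun j _ => by rw [h1 (s j), h0 j]]
  have h2 := avg_one (p := p) (D := p ^ (N - n)) (pow_pos hp.1.pos _).ne'
  have h3 : ∑ _j ∈ Finset.range (p ^ (N - n)), aeval (ζ ^ p ^ (N - n)) g =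
      aeval (ζ ^ p ^ (N - n)) g * ∑ _j ∈ Finset.range (p ^ (N - n)), (1 : PadicAlgCl p) := by
    rw [Finset.mul_sum, mul_one]
  rw [h3, ← mul_smul_comm, h2, mul_one]

end

/-- The automorphisms `s j` exist. -/
lemma exists_s {N : ℕ} (n : ℕ) {ζ : PadicAlgCl p} (hζ : IsPrimitiveRoot ζ (p ^ (N + 1))) :
    ∃ s : ℕ → (PadicAlgCl p ≃ₐ[ℚ_[p]] PadicAlgCl p), ∀ j, s j ζ = ζ ^ (1 + p ^ (n + 1) * j) := by
  have h : ∀ j, ∃ σ : PadicAlgCl p ≃ₐ[ℚ_[p]] PadicAlgCl p, σ ζ = ζ ^ (1 + p ^ (n + 1) * j) := by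
    intro j
    apply exists_sigma hζ
    apply Nat.Coprime.symm
    rw [Nat.Prime.coprime_iff_not_dvd hp.1]
    intro h1
    have h2 : p ∣ p ^ (n + 1) * j := (dvd_pow_self p (Nat.succ_ne_zero n)).mul_right j
    exact hp.1.one_lt.ne' (Nat.dvd_one.1 ((Nat.dvd_add_left h2).1 h1))
  choose s hs using h
  exact ⟨s, hs⟩

end Pool.Agent.K7.H9.AST
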