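import Mathlib
import Pool.Agent.K7.H9.AST.Tr

/-!
# Tate's theorem: `H⁰(ℚ_p, ℂ_p(m)) = 0` for `m ≠ 0`
-/

set_option autoImplicit false

open Polynomial

namespace Pool.Agent.K7.H9.AST

variable {p : ℕ} [hp : Fact p.Prime]

lemma continuous_sig (σ : PadicAlgCl p ≃ₐ[ℚ_[p]] PadicAlgCl p) : Continuous σ := by
  have h1 : Isometry σ := by
    apply AddMonoidHomClass.isometry_of_norm
    exact norm_inv p σ
  exact h1.continuous

/-- The extension of an automorphism to `ℂ_p`, as a ring homomorphism. -/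
noncomputable def extH (σ : PadicAlgCl p ≃ₐ[ℚ_[p]] PadicAlgCl p) : PadicComplex p →+* PadicComplex p :=
  UniformSpace.Completion.mapRingHom (σ : PadicAlgCl p →+* PadicAlgCl p) (continuous_sig σ)

lemma extH_coe (σ : PadicAlgCl p ≃ₐ[ℚ_[p]] PadicAlgCl p) (x : PadicAlgCl p) :
    extH σ (x : PadicComplex p) = (σ x : PadicAlgCl p) :=
  UniformSpace.Completion.mapRingHom_coe (continuous_sig σ) x

lemma continuous_extH (σ : PadicAlgCl p ≃ₐ[ℚ_[p]] PadicAlgCl p) : Continuous (extH σ) :=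
  UniformSpace.Completion.continuous_map

lemma extH_extH (σ τ : PadicAlgCl p ≃ₐ[ℚ_[p]] PadicAlgCl p) (c : PadicComplex p) :
    extH σ (extH τ c) = extH (σ * τ) c := by
  refine UniformSpace.Completion.induction_on c
    (isClosed_eq ((continuous_extH σ).comp (continuous_extH τ)) (continuous_extH _)) fun x => ?_
  rw [extH_coe, extH_coe, extH_coe]
  rfl

lemma extH_one (c : PadicComplex p) : extH (1 : PadicAlgCl p ≃ₐ[ℚ_[p]] PadicAlgCl p) c = c := by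
  refine UniformSpace.Completion.induction_on c
    (isClosed_eq (continuous_extH _) continuous_id) fun x => ?_
  rw [extH_coe]
  rfl

lemma norm_extH (σ : PadicAlgCl p ≃ₐ[ℚ_[p]] PadicAlgCl p) (c : PadicComplex p) :
    ‖extH σ c‖ = ‖c‖ := by
  refine UniformSpace.Completion.induction_on c
    (isClosed_eq ((continuous_extH σ).norm) continuous_norm) fun x => ?_
  rw [extH_coe, PadicComplex.norm_extends, PadicComplex.norm_extends, norm_inv]

/-- The extension of an automorphism to `ℂ_p`. -/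
noncomputable def ext (σ : PadicAlgCl p ≃ₐ[ℚ_[p]] PadicAlgCl p) : PadicComplex p ≃+* PadicComplex p :=
  RingEquiv.ofRingHom (extH σ) (extH σ⁻¹)
    (RingHom.ext fun c => by
      rw [RingHom.comp_apply, extH_extH, mul_inv_cancel, extH_one]
      rfl)
    (RingHom.ext fun c => by
      rw [RingHom.comp_apply, extH_extH, inv_mul_cancel, extH_one]
      rfl)

lemma ext_apply (σ : PadicAlgCl p ≃ₐ[ℚ_[p]] PadicAlgCl p) (c : PadicComplex p) :
    ext σ c = extH σ c := rfl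

/-- The cyclotomic character. -/
noncomputable def chi (σ : PadicAlgCl p ≃ₐ[ℚ_[p]] PadicAlgCl p) : ℤ_[p]ˣ :=
  cyclotomicCharacter (PadicAlgCl p) p (σ : PadicAlgCl p ≃+* PadicAlgCl p)

lemma chi_mul (σ τ : PadicAlgCl p ≃ₐ[ℚ_[p]] PadicAlgCl p) : chi (σ * τ) = chi σ * chi τ := by
  unfold chi
  rw [← map_mul]
  rfl

lemma chi_spec (σ : PadicAlgCl p ≃ₐ[ℚ_[p]] PadicAlgCl p) {n : ℕ} {ζ : PadicAlgCl p}
    (hζ : ζ ^ p ^ n = 1) : σ ζ = ζ ^ ((chi σ).val.toZModPow n).val :=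
  cyclotomicCharacter.spec p (σ : PadicAlgCl p ≃+* PadicAlgCl p) ζ hζ

/-- The value of the character in `ℚ_p`. -/
noncomputable def chq (σ : PadicAlgCl p ≃ₐ[ℚ_[p]] PadicAlgCl p) : ℚ_[p] := ((chi σ : ℤ_[p]) : ℚ_[p])

lemma norm_chq (σ : PadicAlgCl p ≃ₐ[ℚ_[p]] PadicAlgCl p) : ‖chq σ‖ = 1 := by
  unfold chq
  rw [PadicInt.padic_norm_e_of_padicInt]
  exact PadicInt.norm_units _

lemma chq_ne (σ : PadicAlgCl p ≃ₐ[ℚ_[p]] PadicAlgCl p) : chq σ ≠ 0 := by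
  rw [← norm_pos_iff, norm_chq]
  exact one_pos

lemma norm_chq_sub {n : ℕ} {ζ : PadicAlgCl p} (hζ : IsPrimitiveRoot ζ (p ^ (n + 1)))
    {σ : PadicAlgCl p ≃ₐ[ℚ_[p]] PadicAlgCl p} (h : σ ζ = ζ) :
    ‖chq σ - 1‖ ≤ (p : ℝ) ^ (-(n + 1 : ℕ) : ℤ) := by
  have h1 := chi_spec σ hζ.pow_eq_one
  have hlt : 1 < p ^ (n + 1) := Nat.one_lt_pow (Nat.succ_ne_zero n) hp.1.one_lt
  have hne : NeZero (p ^ (n + 1)) := ⟨by omega⟩
  rw [h] at h1
  have h2 : 1 = ((chi σ).val.toZModPow (n + 1)).val :=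
    hζ.pow_inj hlt (ZMod.val_lt _) (by rw [pow_one]; exact h1)
  have h3 : (chi σ).val.toZModPow (n + 1) = 1 := by
    apply ZMod.val_injective
    rw [← h2, ZMod.val_one_eq_one_mod, Nat.mod_eq_of_lt hlt]
  have h4 : (chi σ).val - 1 ∈ RingHom.ker (PadicInt.toZModPow (p := p) (n + 1)) := by
    rw [RingHom.mem_ker, map_sub, h3, map_one, sub_self]
  rw [PadicInt.ker_toZModPow] at h4
  have h5 := (PadicInt.norm_le_pow_iff_mem_span_pow _ _).2 h4
  have h6 : chq σ - 1 = (((chi σ).val - 1 : ℤ_[p]) : ℚ_[p]) := by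
    rw [PadicInt.coe_sub, PadicInt.coe_one]
    rfl
  rw [h6, PadicInt.padic_norm_e_of_padicInt]
  exact h5

lemma zpow_sub_one_le {x : ℚ_[p]} (hx : ‖x‖ = 1) (m : ℤ) : ‖x ^ m - 1‖ ≤ ‖x - 1‖ := by
  obtain ⟨k, rfl | rfl⟩ := m.eq_nat_or_neg
  · rw [zpow_natCast]
    exact pow_sub_one_le hx.le k
  · rw [_root_.zpow_neg, zpow_natCast]
    have hx0 : x ^ k ≠ 0 := pow_ne_zero k (by rw [← norm_pos_iff, hx]; exact one_pos)
    have h1 : (x ^ k)⁻¹ - 1 = -((x ^ k)⁻¹ * (x ^ k - 1)) := by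
      rw [mul_sub, inv_mul_cancel₀ hx0]
      ring
    rw [h1, norm_neg, norm_mul, _root_.norm_inv, norm_pow, hx, one_pow, inv_one, one_mul]
    exact pow_sub_one_le hx.le k

/-- There is an automorphism fixing the roots of unity of order `p ^ (n + 1)` for which the value of
the `m`-th power of the character is not `1`. -/
lemma exists_ne_one (n : ℕ) {m : ℤ} (hm : m ≠ 0) :
    ∃ σ : PadicAlgCl p ≃ₐ[ℚ_[p]] PadicAlgCl p, (∀ ζ : PadicAlgCl p, ζ ^ p ^ (n + 1) = 1 → σ ζ = ζ) ∧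
      chq σ ^ m ≠ 1 := by
  classical
  by_contra hno
  push Not at hno
  obtain ⟨k, hk⟩ : ∃ k : ℕ, m.natAbs < p ^ k := ⟨m.natAbs, Nat.lt_pow_self hp.1.one_lt⟩
  obtain ⟨ζ, hζ⟩ : ∃ ζ : PadicAlgCl p, IsPrimitiveRoot ζ (p ^ (n + k + 1)) :=
    HasEnoughRootsOfUnity.exists_primitiveRoot _ _
  obtain ⟨s, hs⟩ := exists_s n hζ
  have hfix : ∀ j (ξ : PadicAlgCl p), ξ ^ p ^ (n + 1) = 1 → s j ξ = ξ := by
    intro j ξ hξ
    have h1 : ξ ^ p ^ (n + k + 1) = 1 := by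
      rw [show n + k + 1 = (n + 1) + k by ring, pow_add, pow_mul, hξ, one_pow]
    obtain ⟨i, -, rfl⟩ := hζ.eq_pow_of_pow_eq_one h1
    rw [map_pow, hs, ← pow_mul, show (1 + p ^ (n + 1) * j) * i = i + i * p ^ (n + 1) * j by ring,
      pow_add, pow_mul ζ _ j, pow_mul, hξ, one_pow, mul_one]
  have hroot : ∀ j, chq (s j) ^ m = 1 := fun j => hno (s j) (hfix j)
  have hroot' : ∀ j, chq (s j) ^ m.natAbs = 1 := by
    intro j
    have h1 := hroot j
    obtain ⟨k', rfl | rfl⟩ := m.eq_nat_or_neg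
    · rw [Int.natAbs_natCast]
      rwa [zpow_natCast] at h1
    · rw [Int.natAbs_neg, Int.natAbs_natCast]
      rwa [_root_.zpow_neg, zpow_natCast, inv_eq_one] at h1
  have hm0 : 0 < m.natAbs := Int.natAbs_pos.2 hm
  have hinj : Set.InjOn (fun j => chq (s j)) (Finset.range (p ^ k) : Set ℕ) := by
    intro i hi j hj hij
    have hi' : i < p ^ k := Finset.mem_range.1 (Finset.mem_coe.1 hi)
    have hj' : j < p ^ k := Finset.mem_range.1 (Finset.mem_coe.1 hj)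
    have h1 : chi (s i) = chi (s j) := by
      apply Units.ext
      exact Subtype.ext hij
    have h2 : s i ζ = s j ζ := by
      rw [chi_spec (s i) hζ.pow_eq_one, chi_spec (s j) hζ.pow_eq_one, h1]
    rw [hs, hs] at h2
    have hb : ∀ i, i < p ^ k → 1 + p ^ (n + 1) * i < p ^ (n + k + 1) := by
      intro i hi
      have h3 : 1 < p ^ (n + 1) := Nat.one_lt_pow (Nat.succ_ne_zero n) hp.1.one_lt
      have h4 : p ^ (n + 1) * (i + 1) ≤ p ^ (n + 1) * p ^ k := Nat.mul_le_mul_left _ hi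
      have h5 : p ^ (n + k + 1) = p ^ (n + 1) * p ^ k := by
        rw [← pow_add]
        congr 1
        ring
      rw [h5]
      calc 1 + p ^ (n + 1) * i < p ^ (n + 1) + p ^ (n + 1) * i := by omega
        _ = p ^ (n + 1) * (i + 1) := by ring
        _ ≤ _ := h4
    have h6 := hζ.pow_inj (hb i hi') (hb j hj') h2
    have h7 : p ^ (n + 1) * i = p ^ (n + 1) * j := by omega
    exact Nat.eq_of_mul_eq_mul_left (pow_pos hp.1.pos _) h7
  have hcard := Finset.card_image_of_injOn hinj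
  rw [Finset.card_range] at hcard
  have hsub : (Finset.range (p ^ k)).image (fun j => chq (s j)) ⊆
      (nthRoots m.natAbs (1 : ℚ_[p])).toFinset := by
    intro x hx
    obtain ⟨j, -, rfl⟩ := Finset.mem_image.1 hx
    rw [Multiset.mem_toFinset, mem_nthRoots hm0]
    exact hroot' j
  have h1 := Finset.card_le_card hsub
  have h2 := Multiset.toFinset_card_le (nthRoots m.natAbs (1 : ℚ_[p]))
  have h3 := card_nthRoots m.natAbs (1 : ℚ_[p])
  omega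

/-- Approximation by elements of the cyclotomic fields. -/
theorem approx {c : PadicComplex p} (hc : c ≠ 0) {m : ℤ}
    (h : ∀ σ : PadicAlgCl p ≃ₐ[ℚ_[p]] PadicAlgCl p,
      ext σ c = algebraMap ℚ_[p] (PadicComplex p) (chq σ ^ m) * c)
    {N : ℕ} {ζ : PadicAlgCl p} (hζ : IsPrimitiveRoot ζ (p ^ (N + 1))) :
    ∃ g : Polynomial ℚ_[p], ‖c - ((aeval ζ g : PadicAlgCl p) : PadicComplex p)‖ ≤
      (p : ℝ) ^ (-(N + 1 : ℕ) : ℤ) * ‖c‖ * (p : ℝ) ^ (p : ℝ) := by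
  have hp0 : (0 : ℝ) < p := by exact_mod_cast hp.1.pos
  have hp1 : (1 : ℝ) ≤ p := by exact_mod_cast hp.1.one_lt.le
  obtain ⟨r, hr⟩ : ∃ r : ℝ, r = (p : ℝ) ^ (-(N + 1 : ℕ) : ℤ) * ‖c‖ := ⟨_, rfl⟩
  have hr0 : 0 < r := by
    rw [hr]
    exact mul_pos (zpow_pos hp0 _) (norm_pos_iff.2 hc)
  rw [← hr]
  -- an algebraic approximation
  obtain ⟨a, ha⟩ : ∃ a : PadicAlgCl p, ‖c - (a : PadicComplex p)‖ < r := by
    have h1 := (UniformSpace.Completion.denseRange_coe (α := PadicAlgCl p)).exists_dist_lt c hr0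
    obtain ⟨a, ha⟩ := h1
    exact ⟨a, by rwa [dist_eq_norm] at ha⟩
  let K : IntermediateField ℚ_[p] (PadicAlgCl p) := IntermediateField.adjoin ℚ_[p] {ζ}
  have hζK : ζ ∈ K := IntermediateField.mem_adjoin_simple_self ℚ_[p] ζ
  have hnorm : Normal K (PadicAlgCl p) := inferInstance
  obtain ⟨b, hb⟩ := ax (K := K) (Ω := PadicAlgCl p) hp.1 (norm_p' p) (norm_coprime p)
    (fun σ x => norm_inv p (σ.restrictScalars ℚ_[p]) x) a hr0.le (by
      intro σ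
      obtain ⟨τ, hτ⟩ : ∃ τ : PadicAlgCl p ≃ₐ[ℚ_[p]] PadicAlgCl p, τ = σ.restrictScalars ℚ_[p] :=
        ⟨_, rfl⟩
      have hτζ : τ ζ = ζ := by
        rw [hτ]
        exact σ.commutes ⟨ζ, hζK⟩
      have hτa : σ a = τ a := by
        rw [hτ]
        rfl
      rw [hτa, ← PadicComplex.norm_extends]
      have e1 : ((τ a - a : PadicAlgCl p) : PadicComplex p) =
          (-ext τ (c - a) + (ext τ c - c)) + (c - a) := by
        rw [map_sub, ext_apply τ (a : PadicComplex p), extH_coe]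
        push_cast
        ring
      have e2 : ‖ext τ c - c‖ ≤ r := by
        have e3 : ext τ c - c = algebraMap ℚ_[p] (PadicComplex p) (chq τ ^ m - 1) * c := by
          rw [h τ, map_sub, map_one]
          ring
        rw [e3, norm_mul, hr]
        apply mul_le_mul_of_nonneg_right _ (norm_nonneg c)
        have e4 : ‖algebraMap ℚ_[p] (PadicComplex p) (chq τ ^ m - 1)‖ = ‖chq τ ^ m - 1‖ :=
          PadicComplex.norm_extends' p _
        rw [e4]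
        exact (zpow_sub_one_le (norm_chq τ) m).trans (norm_chq_sub hζ hτζ)
      rw [e1]
      refine (IsUltrametricDist.norm_add_le_max _ _).trans (max_le
        ((IsUltrametricDist.norm_add_le_max _ _).trans (max_le ?_ e2)) ha.le)
      rw [norm_neg, ext_apply, norm_extH]
      exact ha.le)
  have hbK : (b : PadicAlgCl p) ∈ IntermediateField.adjoin ℚ_[p] {ζ} := b.2
  have hint : IsIntegral ℚ_[p] ζ := Algebra.IsIntegral.isIntegral ζ
  obtain ⟨g, hg⟩ : ∃ g : Polynomial ℚ_[p], aeval ζ g = (b : PadicAlgCl p) := by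
    rw [← IntermediateField.mem_toSubalgebra,
      IntermediateField.adjoin_simple_toSubalgebra_of_isAlgebraic hint.isAlgebraic,
      Algebra.adjoin_singleton_eq_range_aeval] at hbK
    exact hbK
  refine ⟨g, ?_⟩
  have hpp : (1 : ℝ) ≤ (p : ℝ) ^ (p : ℝ) := Real.one_le_rpow hp1 hp0.le
  have e5 : c - ((aeval ζ g : PadicAlgCl p) : PadicComplex p) =
      (c - a) + ((a - (b : PadicAlgCl p) : PadicAlgCl p) : PadicComplex p) := by
    rw [hg]
    push_cast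
    ring
  rw [e5]
  refine (IsUltrametricDist.norm_add_le_max _ _).trans (max_le ?_ ?_)
  · exact ha.le.trans (le_mul_of_one_le_right hr0.le hpp)
  · rw [PadicComplex.norm_extends]
    exact hb

lemma aeval_sig (σ : PadicAlgCl p ≃ₐ[ℚ_[p]] PadicAlgCl p) (y : PadicAlgCl p)
    (g : Polynomial ℚ_[p]) : σ (aeval y g) = aeval (σ y) g :=
  (aeval_algHom_apply (σ : PadicAlgCl p →ₐ[ℚ_[p]] PadicAlgCl p) y g).symm

/-- **Tate's theorem** for `ℚ_p`. -/
theorem core {c : PadicComplex p} {m : ℤ} (hm : m ≠ 0)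
    (h : ∀ σ : PadicAlgCl p ≃ₐ[ℚ_[p]] PadicAlgCl p,
      ext σ c = algebraMap ℚ_[p] (PadicComplex p) (chq σ ^ m) * c) : c = 0 := by
  by_contra hc
  have hcpos : 0 < ‖c‖ := norm_pos_iff.2 hc
  have hp0 : (0 : ℝ) < p := by exact_mod_cast hp.1.pos
  have hp1 : (1 : ℝ) < p := by exact_mod_cast hp.1.one_lt
  obtain ⟨n, hn⟩ : ∃ n, n = p + 1 := ⟨_, rfl⟩
  obtain ⟨σ, hσ, hσ1⟩ := exists_ne_one (p := p) n hm
  obtain ⟨z, hz⟩ : ∃ z : ℚ_[p], z = chq σ ^ m := ⟨_, rfl⟩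
  rw [← hz] at hσ1
  have hz1 : ‖z‖ = 1 := by rw [hz, norm_zpow, norm_chq, one_zpow]
  obtain ⟨t, ht⟩ : ∃ t : ℝ, t = ‖1 - z‖ := ⟨_, rfl⟩
  have ht0 : 0 < t := by
    rw [ht, norm_pos_iff, sub_ne_zero]
    exact hσ1.symm
  -- the level
  obtain ⟨k, hk⟩ : ∃ k : ℕ, ((p : ℝ)⁻¹) ^ k < t / ((p : ℝ) ^ (p : ℝ) * p) := by
    apply exists_pow_lt_of_lt_one
    · positivity
    · exact inv_lt_one_of_one_lt₀ hp1
  obtain ⟨N, hN⟩ : ∃ N, N = n + k := ⟨_, rfl⟩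
  have hnN : n ≤ N := by omega
  obtain ⟨ζ, hζ⟩ : ∃ ζ : PadicAlgCl p, IsPrimitiveRoot ζ (p ^ (N + 1)) :=
    HasEnoughRootsOfUnity.exists_primitiveRoot _ _
  obtain ⟨s, hs⟩ := exists_s n hζ
  have hζ0 : IsPrimitiveRoot (ζ ^ p ^ (N - n)) (p ^ (n + 1)) :=
    hζ.pow (pow_pos hp.1.pos _) (by rw [← pow_add, show N - n + (n + 1) = N + 1 by omega])
  obtain ⟨g0, hg0⟩ := approx hc h hζ0
  obtain ⟨g, hg⟩ := approx hc h hζ
  obtain ⟨b0, hb0⟩ : ∃ b0 : PadicAlgCl p, b0 = aeval (ζ ^ p ^ (N - n)) g0 := ⟨_, rfl⟩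
  obtain ⟨b, hb⟩ : ∃ b : PadicAlgCl p, b = aeval ζ g := ⟨_, rfl⟩
  rw [← hb0] at hg0
  rw [← hb] at hg
  have hb0' : b0 = aeval ζ (g0.comp (X ^ p ^ (N - n))) := by
    rw [hb0, aeval_comp, map_pow, aeval_X]
  have hPp : ∀ j : ℕ, (p : ℝ) ^ (-(j : ℕ) : ℤ) = ((p : ℝ)⁻¹) ^ j := fun j => by
    rw [_root_.zpow_neg, zpow_natCast, inv_pow]
  have hPr : (p : ℝ) ^ (p : ℝ) = (p : ℝ) ^ p := Real.rpow_natCast _ _
  -- the bound for `b0`
  have h0 : ‖c - b0‖ ≤ (p : ℝ)⁻¹ * (p : ℝ)⁻¹ * ‖c‖ := by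
    refine hg0.trans (le_of_eq ?_)
    rw [hPp, hPr, hn, show p + 1 + 1 = p + 2 by ring, pow_add, inv_pow (p : ℝ) p]
    field_simp
  have hinv1 : (p : ℝ)⁻¹ < 1 := inv_lt_one_of_one_lt₀ hp1
  have hinv0 : 0 < (p : ℝ)⁻¹ := inv_pos.2 hp0
  have hε : ‖c - b‖ ≤ (p : ℝ)⁻¹ * (p : ℝ)⁻¹ * ‖c‖ := by
    refine hg.trans ?_
    rw [hPp, hPr, show N + 1 = (p + 2) + k by omega, pow_add, pow_add, inv_pow (p : ℝ) p]
    have h1 : ((p : ℝ)⁻¹) ^ k ≤ 1 := pow_le_one₀ hinv0.le hinv1.le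
    have h2 : ((p : ℝ) ^ p)⁻¹ * (p : ℝ)⁻¹ ^ 2 * (p : ℝ)⁻¹ ^ k * ‖c‖ * (p : ℝ) ^ p =
        (p : ℝ)⁻¹ ^ k * ((p : ℝ)⁻¹ * (p : ℝ)⁻¹ * ‖c‖) := by
      field_simp
    rw [h2]
    exact mul_le_of_le_one_left (by positivity) h1
  have hε' : p * ‖c - b‖ < t * ‖c‖ := by
    have h1 : p * ‖c - b‖ ≤ p * ((p : ℝ)⁻¹ ^ k * (p : ℝ) ^ (p : ℝ)) * ‖c‖ := by
      have h2 : ‖c - b‖ ≤ (p : ℝ)⁻¹ ^ k * (p : ℝ) ^ (p : ℝ) * ‖c‖ := by
        refine hg.trans ?_
        rw [hPp]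
        have h3 : ((p : ℝ)⁻¹) ^ (N + 1) ≤ ((p : ℝ)⁻¹) ^ k :=
          pow_le_pow_of_le_one hinv0.le hinv1.le (by omega)
        have h4 : ((p : ℝ)⁻¹) ^ (N + 1) * ‖c‖ * (p : ℝ) ^ (p : ℝ) =
          ((p : ℝ)⁻¹) ^ (N + 1) * ((p : ℝ) ^ (p : ℝ) * ‖c‖) := by ring
        rw [h4, mul_assoc]
        exact mul_le_mul_of_nonneg_right h3 (by positivity)
      calc p * ‖c - b‖ ≤ p * ((p : ℝ)⁻¹ ^ k * (p : ℝ) ^ (p : ℝ) * ‖c‖) :=
            mul_le_mul_of_nonneg_left h2 hp0.le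
        _ = _ := by ring
    refine h1.trans_lt ?_
    apply mul_lt_mul_of_pos_right _ hcpos
    rw [lt_div_iff₀ (by positivity)] at hk
    calc p * ((p : ℝ)⁻¹ ^ k * (p : ℝ) ^ (p : ℝ)) = (p : ℝ)⁻¹ ^ k * ((p : ℝ) ^ (p : ℝ) * p) := by ring
      _ < t := hk
  -- the trace of `b`
  obtain ⟨T, hT⟩ : ∃ T, T = tr s (p ^ (N - n)) := ⟨_, rfl⟩
  have hTb : ‖T b‖ = ‖c‖ := by
    have hb0c : ‖b0‖ = ‖c‖ := by
      rw [← PadicComplex.norm_extends]
      have e1 : ((b0 : PadicAlgCl p) : PadicComplex p) = c + -(c - b0) := by ring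
      rw [e1]
      apply norm_add_of_lt
      rw [norm_neg]
      refine h0.trans_lt ?_
      rw [mul_comm, mul_comm ((p : ℝ)⁻¹)]
      have : (p : ℝ)⁻¹ * (p : ℝ)⁻¹ < 1 := by nlinarith
      nlinarith
    have hbb0 : ‖b - b0‖ ≤ (p : ℝ)⁻¹ * (p : ℝ)⁻¹ * ‖c‖ := by
      rw [← PadicComplex.norm_extends]
      have e1 : ((b - b0 : PadicAlgCl p) : PadicComplex p) = (c - b0) + -(c - b) := by
        push_cast
        ring
      rw [e1]
      refine (IsUltrametricDist.norm_add_le_max _ _).trans (max_le h0 ?_)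
      rw [norm_neg]
      exact hε
    have hTdiff : ‖T (b - b0)‖ ≤ (p : ℝ)⁻¹ * ‖c‖ := by
      have h1 := norm_tr hnN hζ hs (g - g0.comp (X ^ p ^ (N - n)))
      rw [map_sub, ← hb, ← hb0', ← hT] at h1
      refine h1.trans ((mul_le_mul_of_nonneg_left hbb0 hp0.le).trans (le_of_eq ?_))
      field_simp
    have hTb0 : T b0 = b0 := by
      rw [hT, hb0]
      exact tr_self hnN hζ hs g0
    have e2 : T b = b0 + T (b - b0) := by
      rw [map_sub, hTb0]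
      ring
    rw [e2, norm_add_of_lt, hb0c]
    rw [hb0c]
    refine hTdiff.trans_lt ?_
    nlinarith
  -- the contradiction
  have hσζ0 : σ (ζ ^ p ^ (N - n)) = ζ ^ p ^ (N - n) := hσ _ hζ0.pow_eq_one
  have hfixed : σ (T b) = T b := by
    rw [hT, hb]
    exact tr_fixed hnN hζ hs g hσζ0
  have hcomm : T (σ b) = σ (T b) := by
    rw [hT, hb]
    exact tr_comm hnN hζ hs g σ
  have hTd : T (σ b - z • b) = (1 - z) • T b := by
    rw [map_sub, map_smul, hcomm, hfixed, sub_smul, one_smul]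
  obtain ⟨u, hu⟩ : ∃ u, σ ζ = ζ ^ u := by
    have h1 : (σ ζ) ^ (p ^ (N + 1)) = 1 := by
      rw [← map_pow, hζ.pow_eq_one, map_one]
    obtain ⟨u, -, hu⟩ := hζ.eq_pow_of_pow_eq_one h1
    exact ⟨u, hu.symm⟩
  have hσb : σ b - z • b = aeval ζ (g.comp (X ^ u) - C z * g) := by
    rw [map_sub, aeval_comp, map_pow, aeval_X, map_mul, aeval_C, hb, aeval_sig, hu,
      Algebra.smul_def]
  have h1 := norm_tr hnN hζ hs (g.comp (X ^ u) - C z * g)
  rw [← hσb, ← hT, hTd, norm_smul, ← ht, hTb] at h1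
  have h2 : ‖σ b - z • b‖ ≤ ‖c - b‖ := by
    rw [← PadicComplex.norm_extends]
    have e1 : ((σ b - z • b : PadicAlgCl p) : PadicComplex p) =
        -ext σ (c - b) + algebraMap ℚ_[p] (PadicComplex p) z * (c - b) := by
      rw [map_sub, h σ, ← hz, ext_apply σ (b : PadicComplex p), extH_coe]
      push_cast
      rw [Algebra.smul_def]
      ring
    rw [e1]
    refine (IsUltrametricDist.norm_add_le_max _ _).trans (max_le ?_ ?_)
    · rw [norm_neg, ext_apply, norm_extH]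
    · have e3 : ‖algebraMap ℚ_[p] (PadicComplex p) z‖ = ‖z‖ := PadicComplex.norm_extends' p _
      rw [norm_mul, e3, hz1, one_mul]
  have h3 : t * ‖c‖ ≤ p * ‖c - b‖ := h1.trans (mul_le_mul_of_nonneg_left h2 hp0.le)
  exact absurd h3 (not_le.2 hε')

end Pool.Agent.K7.H9.AST
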