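import Mathlib
import Pool.Agent.K7.H9.AST.Core
import Pool.Agent.K7.H9.HT.Defs

/-!
# Tate's theorem: `H⁰(K, ℂ_ℓ(m)) = 0` for `m ≠ 0` and finite extensions `K` of `ℚ_ℓ`
-/

set_option autoImplicit false

open Polynomial

namespace Pool.Agent.K7.H9.AST

open Pool.Agent.K7.H9.HT

variable {p : ℕ} [hp : Fact p.Prime]

/-- The algebraic elements of `ℂ_p`. -/
lemma exists_coe {x : PadicComplex p} (hx : IsAlgebraic ℚ_[p] x) :
    ∃ a : PadicAlgCl p, (a : PadicComplex p) = x := by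
  obtain ⟨m, hm0, hm⟩ := hx
  obtain ⟨P, hP⟩ : ∃ P : Polynomial (PadicAlgCl p), P = m.map (algebraMap ℚ_[p] (PadicAlgCl p)) :=
    ⟨_, rfl⟩
  have hP0 : P ≠ 0 := by
    rw [hP]
    exact (Polynomial.map_ne_zero_iff (algebraMap ℚ_[p] (PadicAlgCl p)).injective).2 hm0
  have hs : P.Splits := IsAlgClosed.splits P
  have h1 : aeval x P = 0 := by
    rw [hP, aeval_map_algebraMap, hm]
  have h2 : (P.map (algebraMap (PadicAlgCl p) (PadicComplex p))) = C (algebraMap _ _ P.leadingCoeff) *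
      (P.roots.map fun a => X - C (algebraMap (PadicAlgCl p) (PadicComplex p) a)).prod := by
    conv_lhs => rw [hs.eq_prod_roots]
    rw [Polynomial.map_mul, map_C, Polynomial.map_multiset_prod, Multiset.map_map]
    congr 2
    apply Multiset.map_congr rfl
    intro a _
    simp
  rw [aeval_def, ← eval_map, h2, eval_mul, eval_C, mul_eq_zero] at h1
  rcases h1 with h1 | h1
  · exact absurd ((map_eq_zero _).1 h1) (leadingCoeff_ne_zero.2 hP0)
  · rw [eval_multiset_prod, Multiset.prod_eq_zero_iff, Multiset.map_map, Multiset.mem_map] at h1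
    obtain ⟨a, -, ha⟩ := h1
    refine ⟨a, ?_⟩
    rw [Function.comp_apply, eval_sub, eval_X, eval_C, sub_eq_zero] at ha
    exact ha.symm

lemma ext_alg (σ : PadicAlgCl p ≃ₐ[ℚ_[p]] PadicAlgCl p) (x : ℚ_[p]) :
    ext σ (algebraMap ℚ_[p] (PadicComplex p) x) = algebraMap ℚ_[p] (PadicComplex p) x := by
  have h1 : algebraMap ℚ_[p] (PadicComplex p) x =
      ((algebraMap ℚ_[p] (PadicAlgCl p) x : PadicAlgCl p) : PadicComplex p) := rfl
  rw [h1, ext_apply, extH_coe, AlgEquiv.commutes]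

/-- The extension as an algebra homomorphism. -/
noncomputable def extA (σ : PadicAlgCl p ≃ₐ[ℚ_[p]] PadicAlgCl p) :
    PadicComplex p →ₐ[ℚ_[p]] PadicComplex p :=
  { (ext σ : PadicComplex p →+* PadicComplex p) with
    commutes' := ext_alg σ }

lemma extA_apply (σ : PadicAlgCl p ≃ₐ[ℚ_[p]] PadicAlgCl p) (c : PadicComplex p) :
    extA σ c = ext σ c := rfl

lemma normal_closure : Normal ℚ (AlgebraicClosure ℚ) := by
  have h : @IsAlgClosure ℚ (AlgebraicClosure ℚ) _ _ (AlgebraicClosure.instAlgebra ℚ (R := ℚ)) _ :=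
    inferInstance
  have h2 := @IsAlgClosure.normal ℚ (AlgebraicClosure ℚ) _ _
    (AlgebraicClosure.instAlgebra ℚ (R := ℚ)) h
  convert h2
  exact Subsingleton.elim _ _

/-- The automorphism of the field of the algebraic numbers. -/
lemma exists_g (e : AlgebraicClosure ℚ →+* PadicComplex p)
    (σ : PadicAlgCl p ≃ₐ[ℚ_[p]] PadicAlgCl p) :
    ∃ g : Gal(AlgebraicClosure ℚ/ℚ), (∀ x, ext σ (e x) = e (g x)) ∧
      cyc p g = algebraMap ℚ_[p] (PadicComplex p) (chq σ) := by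
  letI : Algebra (AlgebraicClosure ℚ) (PadicComplex p) := e.toAlgebra
  have htow : @IsScalarTower ℚ (AlgebraicClosure ℚ) (PadicComplex p) Algebra.toSMul Algebra.toSMul
      Algebra.toSMul :=
    IsScalarTower.of_algebraMap_eq' (Subsingleton.elim _ _)
  have hnorm := normal_closure
  obtain ⟨F, hF⟩ : ∃ F : PadicComplex p ≃ₐ[ℚ] PadicComplex p, ∀ x, F x = ext σ x :=
    ⟨AlgEquiv.ofRingEquiv (f := ext σ) fun x => by rw [eq_ratCast, map_ratCast], fun x => rfl⟩
  have hg : ∀ x, ext σ (e x) = e (F.restrictNormal (AlgebraicClosure ℚ) x) := by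
    intro x
    have h1 := AlgEquiv.restrictNormal_commutes F (AlgebraicClosure ℚ) x
    rw [← hF]
    exact h1.symm
  obtain ⟨g, hgdef⟩ : ∃ g, g = F.restrictNormal (AlgebraicClosure ℚ) := ⟨_, rfl⟩
  rw [← hgdef] at hg
  refine ⟨g, hg, ?_⟩
  have hval : (cyclotomicCharacter (AlgebraicClosure ℚ) p g : ℤ_[p]) = (chi σ : ℤ_[p]) := by
    rw [← PadicInt.ext_of_toZModPow]
    intro n
    have hne : NeZero (p ^ n) := ⟨(pow_pos hp.1.pos n).ne'⟩
    obtain ⟨ζ, hζ⟩ : ∃ ζ : AlgebraicClosure ℚ, IsPrimitiveRoot ζ (p ^ n) :=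
      HasEnoughRootsOfUnity.exists_primitiveRoot _ _
    have h1 : g ζ = ζ ^ ((cyclotomicCharacter (AlgebraicClosure ℚ) p g).val.toZModPow n).val :=
      cyclotomicCharacter.spec p (g : AlgebraicClosure ℚ ≃+* AlgebraicClosure ℚ) ζ hζ.pow_eq_one
    have hζe : IsPrimitiveRoot (e ζ) (p ^ n) := hζ.map_of_injective e.injective
    have halg : IsAlgebraic ℚ_[p] (e ζ) := by
      refine ⟨X ^ (p ^ n) - C 1, (monic_X_pow_sub_C 1 (pow_pos hp.1.pos n).ne').ne_zero, ?_⟩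
      rw [map_sub, map_pow, aeval_X, aeval_C, map_one, hζe.pow_eq_one, sub_self]
    obtain ⟨ξ, hξ⟩ := exists_coe halg
    have hξ1 : ξ ^ p ^ n = 1 := by
      have h2 : ((ξ ^ p ^ n : PadicAlgCl p) : PadicComplex p) = ((1 : PadicAlgCl p) : PadicComplex p) := by
        rw [PadicComplex.coe_eq, map_pow, ← PadicComplex.coe_eq, hξ, hζe.pow_eq_one,
          PadicComplex.coe_eq, map_one]
      rw [PadicComplex.coe_eq, PadicComplex.coe_eq] at h2
      exact (algebraMap (PadicAlgCl p) (PadicComplex p)).injective h2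
    have h3 : ext σ (e ζ) = (e ζ) ^ ((chi σ).val.toZModPow n).val := by
      rw [← hξ, ext_apply, extH_coe, chi_spec σ hξ1, PadicComplex.coe_eq, map_pow,
        ← PadicComplex.coe_eq]
    rw [hg, h1, map_pow] at h3
    have h4 := hζe.pow_inj (ZMod.val_lt _) (ZMod.val_lt _) h3
    exact ZMod.val_injective _ h4
  unfold cyc chq
  rw [hval]

section norm

variable {𝕂 : Type} [NormedField 𝕂] [NormedAlgebra ℚ_[p] 𝕂] [FiniteDimensional ℚ_[p] 𝕂]

/-- Embeddings are conjugate. -/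
lemma exists_sigma_comp (i τ : 𝕂 →ₐ[ℚ_[p]] PadicComplex p) :
    ∃ σ : PadicAlgCl p ≃ₐ[ℚ_[p]] PadicAlgCl p, ∀ x, ext σ (i x) = τ x := by
  obtain ⟨α, hα⟩ := Field.exists_primitive_element ℚ_[p] 𝕂
  have hint : IsIntegral ℚ_[p] α := Algebra.IsIntegral.isIntegral α
  obtain ⟨a, ha⟩ := exists_coe (p := p) (x := i α) (hint.isAlgebraic.algHom i)
  obtain ⟨b, hb⟩ := exists_coe (p := p) (x := τ α) (hint.isAlgebraic.algHom τ)
  have hinj : Function.Injective (algebraMap (PadicAlgCl p) (PadicComplex p)) :=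
    (algebraMap (PadicAlgCl p) (PadicComplex p)).injective
  have hma : minpoly ℚ_[p] a = minpoly ℚ_[p] α := by
    rw [← minpoly.algHom_eq i i.injective α, ← ha, PadicComplex.coe_eq,
      minpoly.algebraMap_eq hinj]
  have hmb : minpoly ℚ_[p] b = minpoly ℚ_[p] α := by
    rw [← minpoly.algHom_eq τ τ.injective α, ← hb, PadicComplex.coe_eq,
      minpoly.algebraMap_eq hinj]
  have hconj : IsConjRoot ℚ_[p] b a := by
    rw [IsConjRoot, hma, hmb]
  obtain ⟨σ, hσ⟩ := isConjRoot_iff_exists_algEquiv.1 hconj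
  refine ⟨σ, fun x => ?_⟩
  obtain ⟨g, rfl⟩ : ∃ g : Polynomial ℚ_[p], aeval α g = x := by
    have hx : x ∈ IntermediateField.adjoin ℚ_[p] {α} := by
      rw [hα]
      exact IntermediateField.mem_top
    rw [← IntermediateField.mem_toSubalgebra,
      IntermediateField.adjoin_simple_toSubalgebra_of_isAlgebraic hint.isAlgebraic,
      Algebra.adjoin_singleton_eq_range_aeval] at hx
    exact hx
  have e1 : i (aeval α g) = aeval (i α) g := (aeval_algHom_apply i α g).symm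
  have e2 : τ (aeval α g) = aeval (τ α) g := (aeval_algHom_apply τ α g).symm
  have e3 : extA σ (aeval (i α) g) = aeval (extA σ (i α)) g := (aeval_algHom_apply _ _ g).symm
  rw [e1, e2, ← extA_apply, e3, extA_apply, ← ha, ext_apply, extH_coe, hσ, hb]

/-- **Tate's theorem.** -/
theorem tateTheorem (i : 𝕂 →ₐ[ℚ_[p]] PadicComplex p) (e : AlgebraicClosure ℚ →+* PadicComplex p) :
    TateTheorem i e := by
  classical
  intro m hm c hc
  -- the relation for the automorphisms which fix the image of `i`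
  have h1 : ∀ σ : PadicAlgCl p ≃ₐ[ℚ_[p]] PadicAlgCl p, (∀ x, ext σ (i x) = i x) →
      ext σ c = algebraMap ℚ_[p] (PadicComplex p) (chq σ ^ m) * c := by
    intro σ hσ
    obtain ⟨g, hg, hcyc⟩ := exists_g e σ
    have h2 := hc (ext σ) g ⟨continuous_extH σ, hσ, hg⟩
    rw [h2, hcyc, map_zpow₀]
  choose S hS using fun τ : 𝕂 →ₐ[ℚ_[p]] PadicComplex p => exists_sigma_comp i τ
  obtain ⟨f, hf⟩ : ∃ f : (𝕂 →ₐ[ℚ_[p]] PadicComplex p) → PadicComplex p, ∀ τ, f τ =
      algebraMap ℚ_[p] (PadicComplex p) ((chq (S τ) ^ m)⁻¹) * ext (S τ) c := ⟨_, fun τ => rfl⟩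
  have hchq : ∀ σ τ : PadicAlgCl p ≃ₐ[ℚ_[p]] PadicAlgCl p, chq (σ * τ) = chq σ * chq τ := by
    intro σ τ
    unfold chq
    rw [chi_mul, Units.val_mul, PadicInt.coe_mul]
  have hee : ∀ (σ τ : PadicAlgCl p ≃ₐ[ℚ_[p]] PadicAlgCl p) (x : PadicComplex p),
      ext σ (ext τ x) = ext (σ * τ) x := fun σ τ x => extH_extH σ τ x
  have hact : ∀ (σ : PadicAlgCl p ≃ₐ[ℚ_[p]] PadicAlgCl p) (τ : 𝕂 →ₐ[ℚ_[p]] PadicComplex p),
      ext σ (f τ) = algebraMap ℚ_[p] (PadicComplex p) (chq σ ^ m) * f ((extA σ).comp τ) := by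
    intro σ τ
    obtain ⟨τ', hτ'⟩ : ∃ τ', τ' = (extA σ).comp τ := ⟨_, rfl⟩
    rw [← hτ', hf, hf, map_mul, ext_alg, hee]
    -- the automorphism `S τ'⁻¹ σ S τ` fixes the image of `i`
    obtain ⟨ρ, hρ⟩ : ∃ ρ, ρ = (S τ')⁻¹ * (σ * S τ) := ⟨_, rfl⟩
    have h2 : σ * S τ = S τ' * ρ := by
      rw [hρ, mul_inv_cancel_left]
    have h3 : ∀ x, ext ρ (i x) = i x := by
      intro x
      have h4 : ext (S τ') (ext ρ (i x)) = ext (S τ') (i x) := by
        rw [hee, ← h2, ← hee, hS, hS, hτ']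
        rfl
      exact (ext (S τ')).injective h4
    have h5 := h1 ρ h3
    rw [h2, ← hee, h5, map_mul, ext_alg]
    have h6 : chq σ * chq (S τ) = chq (S τ') * chq ρ := by
      rw [← hchq, ← hchq, h2]
    have h7 : (chq (S τ) ^ m)⁻¹ * chq ρ ^ m = chq σ ^ m * (chq (S τ') ^ m)⁻¹ := by
      have n1 : chq (S τ) ^ m ≠ 0 := zpow_ne_zero m (chq_ne _)
      have n2 : chq (S τ') ^ m ≠ 0 := zpow_ne_zero m (chq_ne _)
      rw [eq_mul_inv_iff_mul_eq₀ n2, mul_assoc, inv_mul_eq_iff_eq_mul₀ n1, ← mul_zpow, ← mul_zpow,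
        mul_comm (chq ρ), ← h6, mul_comm (chq (S τ))]
    rw [← mul_assoc, ← mul_assoc, ← map_mul, ← map_mul, h7]
  obtain ⟨y, hy⟩ : ∃ y, y = ∏ τ, f τ := ⟨_, rfl⟩
  obtain ⟨d, hd⟩ : ∃ d, d = Fintype.card (𝕂 →ₐ[ℚ_[p]] PadicComplex p) := ⟨_, rfl⟩
  have hd0 : d ≠ 0 := by
    rw [hd]
    exact (Fintype.card_pos_iff.2 ⟨i⟩).ne'
  have hy0 : y = 0 := by
    apply core (p := p) (m := m * d) (mul_ne_zero hm (Nat.cast_ne_zero.2 hd0))
    intro σ
    have hbij : Function.Bijective fun τ : 𝕂 →ₐ[ℚ_[p]] PadicComplex p => (extA σ).comp τ := by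
      apply Finite.injective_iff_bijective.1
      intro τ τ' h2
      apply AlgHom.ext
      intro x
      have h3 := DFunLike.congr_fun h2 x
      exact (ext σ).injective h3
    have h2 : ∏ τ, f ((extA σ).comp τ) = ∏ τ, f τ := hbij.prod_comp f
    rw [hy, map_prod, Finset.prod_congr rfl fun τ _ => hact σ τ, Finset.prod_mul_distrib, h2,
      Finset.prod_const, Finset.card_univ, ← hd, ← map_pow, _root_.zpow_mul, zpow_natCast]
  rw [hy, Finset.prod_eq_zero_iff] at hy0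
  obtain ⟨τ, -, hτ⟩ := hy0
  rw [hf, mul_eq_zero] at hτ
  rcases hτ with h2 | h2
  · exact absurd ((map_eq_zero _).1 h2) (inv_ne_zero (zpow_ne_zero m (chq_ne _)))
  · exact (map_eq_zero _).1 h2

end norm

end Pool.Agent.K7.H9.AST
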